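import Mathlib.Order.WellFoundedSet
import Mathlib.Data.Set.Card
import Mathlib.Data.Set.Finite.Lemmas
import Pool.Agent.MP_7be75d_co.Lovasz3
import Pool.Agent.MP_9d78a0_co.Main
import Mathlib.Algebra.Order.Floor.Semifield
import Mathlib.Algebra.Order.Archimedean.Real.Basic
import Mathlib.Algebra.Order.BigOperators.Group.Finset
import Mathlib.Algebra.BigOperators.Ring.Finset
import Mathlib.Tactic.Linarith
import Mathlib.Tactic.Positivity
import Mathlib.Tactic.FieldSimp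
import Mathlib.Tactic.GCongr

-- ======== part 0: formerly Pool.Agent.MP_9d78a0_co.pl.Forest
section MrgPart0

/-! The lemma on labelled forests, and linked decompositions of a connectivity function. -/

set_option autoImplicit false

namespace Pool.Agent.MP_9d78a0_co.pl

open Relation Set

section Forest

variable {α : Type} {r ch : α → α → Prop} {lab size : α → ℕ}

/-- descent through children with labels at least `k` -/
def Desc (ch : α → α → Prop) (lab : α → ℕ) (k : ℕ) : α → α → Prop :=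
  TransGen fun x y => ch x y ∧ k ≤ lab x ∧ k ≤ lab y

theorem forest_level (tr : ∀ a b c, r a b → r b c → r a c) {S : Set α}
    (hsz : ∀ b a, ch b a → size b < size a)
    (link : ∀ k b a, a ∈ S → Desc ch lab k b a → lab b = k → lab a = k → r b a)
    {N : Set α} {k : ℕ} (hN : ∀ a ∈ N, a ∈ S ∧ lab a = k) {f : ℕ → α}
    (hf : PartiallyWellOrderedOn.IsBadSeq r N f)
    (hm : ∀ n, PartiallyWellOrderedOn.IsMinBadSeq r size N n f) :
    {b | b ∈ N ∧ ∃ n, Desc ch lab k b (f n)}.PartiallyWellOrderedOn r := by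
  classical
  rw [PartiallyWellOrderedOn.iff_forall_not_isBadSeq]
  rintro b ⟨hb, hbad⟩
  choose g hg using fun n => (hb n).2
  obtain ⟨m0, hm0⟩ : ∃ m0, ∀ m, g m0 ≤ g m :=
    ⟨Function.argmin g, fun m => Function.argmin_le g m⟩
  have hlt : ∀ x y, Desc ch lab k x y → size x < size y := by
    intro x y h
    induction h with
    | single h => exact hsz _ _ h.1
    | tail _ h ih => exact ih.trans (hsz _ _ h.1)
  refine hm (g m0) (fun n => if n < g m0 then f n else b (m0 + (n - g m0)))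
    (fun m h => by simp [h]) (by simpa using hlt _ _ (hg m0)) ⟨fun n => ?_, fun m n hmn => ?_⟩
  · dsimp only
    split_ifs
    exacts [hf.1 n, (hb _).1]
  · dsimp only
    split_ifs with h1 h2 h2
    · exact hf.2 m n hmn
    · intro h
      have h3 := hg (m0 + (n - g m0))
      exact hf.2 m _ (h1.trans_le (hm0 _)) (tr _ _ _ h (link k _ _ (hN _ (hf.1 _)).1 h3
        (hN _ (hb _).1).2 (hN _ (hf.1 _)).2))
    · omega
    · exact hbad _ _ (by omega)

/-- The lemma on labelled forests. -/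
theorem forest (tr : ∀ a b c, r a b → r b c → r a c) {S : Set α} {K : ℕ}
    (hK : ∀ a ∈ S, lab a ≤ K) (hcl : ∀ b a, a ∈ S → ch b a → b ∈ S)
    (hsz : ∀ b a, ch b a → size b < size a)
    (link : ∀ k b a, a ∈ S → Desc ch lab k b a → lab b = k → lab a = k → r b a)
    (glue : ∀ f : ℕ → α, (∀ n, f n ∈ S) → {b | ∃ n, ch b (f n)}.PartiallyWellOrderedOn r →
      ∃ m n, m < n ∧ r (f m) (f n)) : S.PartiallyWellOrderedOn r := by
  have key : ∀ d k, k + d = K + 1 → ∀ T ⊆ S, (∀ a ∈ T, k ≤ lab a) →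
      {b | b ∉ T ∧ ∃ a ∈ T, ch b a}.PartiallyWellOrderedOn r → T.PartiallyWellOrderedOn r := by
    intro d
    induction d with
    | zero =>
      intro k hk T hT hl _
      have : T = ∅ := eq_empty_of_forall_notMem fun a ha => by
        have := hK a (hT ha)
        have := hl a ha
        omega
      rw [this]
      exact partiallyWellOrderedOn_empty r
    | succ d ih =>
      intro k hk T hT hl hex
      have hN : {a | a ∈ T ∧ lab a = k}.PartiallyWellOrderedOn r := by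
        rw [PartiallyWellOrderedOn.iff_not_exists_isMinBadSeq size]
        rintro ⟨f, hf, hm⟩
        have h1 := forest_level tr hsz link (fun a ha => ⟨hT ha.1, ha.2⟩) hf hm
        have h2 : {b | b ∈ T ∧ k < lab b ∧ ∃ n, Desc ch lab k b (f n)}.PartiallyWellOrderedOn r := by
          refine ih (k + 1) (by omega) _ (fun a ha => hT ha.1) (fun a ha => ha.2.1)
            ((hex.union h1).mono ?_)
          rintro b ⟨hb, a, ⟨ha, ha1, n, hn⟩, hba⟩
          by_cases hbT : b ∈ T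
          · have h3 : Desc ch lab k b (f n) := TransGen.head ⟨hba, hl b hbT, ha1.le⟩ hn
            rcases (hl b hbT).eq_or_lt with h | h
            · exact Or.inr ⟨⟨hbT, h.symm⟩, n, h3⟩
            · exact absurd ⟨hbT, h, n, h3⟩ hb
          · exact Or.inl ⟨hbT, a, ha, hba⟩
        have h4 : {b | ∃ n, ch b (f n)}.PartiallyWellOrderedOn r := by
          refine ((hex.union h1).union h2).mono ?_
          rintro b ⟨n, hn⟩
          by_cases hbT : b ∈ T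
          · have h3 : Desc ch lab k b (f n) := TransGen.single ⟨hn, hl b hbT, (hf.1 n).2.ge⟩
            rcases (hl b hbT).eq_or_lt with h | h
            · exact Or.inl (Or.inr ⟨⟨hbT, h.symm⟩, n, h3⟩)
            · exact Or.inr ⟨hbT, h, n, h3⟩
          · exact Or.inl (Or.inl ⟨hbT, f n, (hf.1 n).1, hn⟩)
        obtain ⟨m, n, hmn, h⟩ := glue f (fun n => hT (hf.1 n).1) h4
        exact hf.2 m n hmn h
      have h2 : {a | a ∈ T ∧ k < lab a}.PartiallyWellOrderedOn r := by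
        refine ih (k + 1) (by omega) _ (fun a ha => hT ha.1) (fun a ha => ha.2)
          ((hex.union hN).mono ?_)
        rintro b ⟨hb, a, ha, hba⟩
        by_cases hbT : b ∈ T
        · rcases (hl b hbT).eq_or_lt with h | h
          · exact Or.inr ⟨hbT, h.symm⟩
          · exact absurd ⟨hbT, h⟩ hb
        · exact Or.inl ⟨hbT, a, ha.1, hba⟩
      refine (hN.union h2).mono fun a ha => ?_
      rcases (hl a ha).eq_or_lt with h | h
      exacts [Or.inl ⟨ha, h.symm⟩, Or.inr ⟨ha, h⟩]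
  refine key (K + 1) 0 (by omega) S subset_rfl (fun _ _ => Nat.zero_le _)
    ((partiallyWellOrderedOn_empty r).mono ?_)
  rintro b ⟨hb, a, ha, hba⟩
  exact absurd (hcl b a ha hba) hb

/-- a lexicographic minimum, larger indices being more important -/
theorem exists_lexmin (q : α → ℕ → ℕ) (m : ℕ) : ∀ A : α → Prop, (∃ a, A a) →
    ∃ a, A a ∧ ∀ b, A b → ∀ j < m, (∀ k, j < k → k < m → q b k ≤ q a k) → q a j ≤ q b j := by
  induction m with
  | zero => exact fun A ⟨a, ha⟩ => ⟨a, ha, fun _ _ _ h => absurd h (Nat.not_lt_zero _)⟩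
  | succ m ih =>
    intro A ⟨a0, ha0⟩
    obtain ⟨a1, ha1, hmin⟩ := (wellFounded_lt.onFun (f := fun a => q a m)).has_min {a | A a} ⟨a0, ha0⟩
    have hmin' : ∀ b, A b → q a1 m ≤ q b m := fun b hb => not_lt.1 (hmin b hb)
    obtain ⟨a, ⟨ha, ham⟩, h⟩ := ih (fun a => A a ∧ q a m = q a1 m) ⟨a1, ha1, rfl⟩
    refine ⟨a, ha, fun b hb j hj hk => ?_⟩
    rcases Nat.lt_succ_iff_lt_or_eq.1 hj with hj | rfl
    · exact h b ⟨hb, le_antisymm (ham ▸ hk m hj (Nat.lt_succ_self m)) (hmin' b hb)⟩ j hj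
        fun k h1 h2 => hk k h1 (by omega)
    · exact ham ▸ hmin' b hb

end Forest

end Pool.Agent.MP_9d78a0_co.pl

end MrgPart0

-- ======== part 1: formerly Pool.Agent.MP_9d78a0_co.pl.Linked
section MrgPart1

/-! Linked decompositions of a connectivity function (after Geelen, Gerards and Whittle). -/

set_option autoImplicit false

namespace Pool.Agent.MP_9d78a0_co.pl

open Set

variable {ε : Type} {f : Set ε → ℕ} {K : ℕ} {T : Set (Set ε)}

/-- a binary decomposition of width at most `K`, as a laminar family -/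
structure Dec (f : Set ε → ℕ) (K : ℕ) (T : Set (Set ε)) : Prop where
  lam : ∀ s ∈ T, ∀ t ∈ T, s ⊆ t ∨ t ⊆ s ∨ Disjoint s t
  top : univ ∈ T
  split : ∀ s ∈ T, s.Nontrivial → ∃ l ∈ T, l ⊆ s ∧ l.Nonempty ∧ (s \ l).Nonempty ∧ s \ l ∈ T
  wid : ∀ s ∈ T, f s ≤ K

/-- between two nested members the least connectivity is attained by a member -/
def Lnk (f : Set ε → ℕ) (T : Set (Set ε)) : Prop :=
  ∀ t ∈ T, ∀ t' ∈ T, ∀ U, t ⊆ U → U ⊆ t' → ∃ r ∈ T, t ⊆ r ∧ r ⊆ t' ∧ f r ≤ f U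

/-- connectivity functions -/
structure Subm (f : Set ε → ℕ) : Prop where
  emp : f ∅ = 0
  sub : ∀ A B, f (A ∩ B) + f (A ∪ B) ≤ f A + f B
  pos : ∀ A B, f (A \ B) + f (B \ A) ≤ f A + f B

/-- the outer copy of a member -/
def mm (t U s : Set ε) : Set ε := (s \ U) ∪ {x | x ∈ U ∧ t ⊆ s}

theorem mm_pos {t U s : Set ε} (h : t ⊆ s) : mm t U s = s ∪ U := by
  ext x
  simp only [mm, h, and_true, mem_union, mem_sdiff, mem_ofPred_eq]
  tauto

theorem mm_neg {t U s : Set ε} (h : ¬ t ⊆ s) : mm t U s = s \ U := by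
  ext x
  simp [mm, h]

theorem mm_mono {t U s s' : Set ε} (h : s ⊆ s') : mm t U s ⊆ mm t U s' := by
  rintro x (hx | hx)
  exacts [Or.inl ⟨h hx.1, hx.2⟩, Or.inr ⟨hx.1, hx.2.trans h⟩]

theorem mm_cases (t U s : Set ε) : U ⊆ mm t U s ∨ Disjoint (mm t U s) U := by
  by_cases h : t ⊆ s
  · exact Or.inl (mm_pos h ▸ subset_union_right)
  · exact Or.inr (mm_neg h ▸ disjoint_sdiff_left)

/-- members split by a set -/
def Spl (T : Set (Set ε)) (U : Set ε) : Set (Set ε) :=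
  {s | s ∈ T ∧ (s ∩ U).Nonempty ∧ (s \ U).Nonempty}

/-- nested pairs with connectivity at least `k` in between -/
def Good (f : Set ε → ℕ) (T : Set (Set ε)) (k : ℕ) : Set (Set ε × Set ε) :=
  {x | x.1 ∈ T ∧ x.2 ∈ T ∧ x.1 ⊆ x.2 ∧ ∀ r ∈ T, x.1 ⊆ r → r ⊆ x.2 → k ≤ f r}

/-- the rearranged family -/
def New (T : Set (Set ε)) (t U : Set ε) : Set (Set ε) := (· ∩ U) '' T ∪ mm t U '' T

theorem Dec.nest (h : Dec f K T) {s s' : Set ε} (hs : s ∈ T) (hs' : s' ∈ T) {x : ε} (h1 : x ∈ s)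
    (h2 : x ∈ s') : s ⊆ s' ∨ s' ⊆ s := by
  rcases h.lam s hs s' hs' with k | k | k
  exacts [Or.inl k, Or.inr k, absurd h2 (disjoint_left.1 k h1)]

theorem copies [Finite ε] (hf : Subm f) (h : Dec f K T) {t t' U : Set ε} (ht : t ∈ T) (ht' : t' ∈ T)
    (h1 : t ⊆ U) (h2 : U ⊆ t') (hmin : ∀ W, t ⊆ W → W ⊆ t' → f U ≤ f W)
    (hspl : ∀ W, t ⊆ W → W ⊆ t' → f W ≤ f U → (Spl T U).ncard ≤ (Spl T W).ncard)
    {s : Set ε} (hs : s ∈ T) :
    (f U < f (s ∩ U) → f (s ∩ U) ≤ f s) ∧ f (mm t U s) ≤ f s ∧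
      (f U < f (s ∩ U) → f U < f (mm t U s) → f (s ∩ U) < f s ∧ f (mm t U s) < f s) := by
  have e0 := hf.emp
  by_cases hts : t ⊆ s
  · rw [mm_pos hts]
    rcases h.lam s hs t' ht' with k | k | k
    · have a1 := hf.sub s U
      have a2 := hmin (s ∩ U) (subset_inter hts h1) (inter_subset_right.trans h2)
      have a3 := hmin (s ∪ U) (hts.trans subset_union_left) (union_subset k h2)
      omega
    · rw [inter_eq_right.2 (h2.trans k), union_eq_left.2 (h2.trans k)]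
      omega
    · have a0 : s ∩ U = ∅ := (k.mono_right h2).inter_eq
      have a1 := hf.pos s U
      have a2 : U \ s = U := (k.mono_right h2).symm.sdiff_eq_left
      have a3 : t = ∅ := subset_empty_iff.1 (a0 ▸ subset_inter hts h1)
      have a4 := hmin ∅ (a3 ▸ subset_rfl) (empty_subset _)
      have a5 := hf.sub s U
      rw [a0] at a5 ⊢
      omega
  · rw [mm_neg hts]
    by_cases k1 : (s ∩ U).Nonempty
    swap
    · rw [not_nonempty_iff_eq_empty] at k1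
      rw [k1, (disjoint_iff_inter_eq_empty.2 k1).sdiff_eq_left]
      omega
    by_cases k2 : (s \ U).Nonempty
    swap
    · rw [not_nonempty_iff_eq_empty] at k2
      rw [k2, inter_eq_left.2 (sdiff_eq_empty.1 k2)]
      omega
    have a1 : s ⊆ t' := by
      obtain ⟨x, hx⟩ := k1
      exact (h.nest hs ht' hx.1 (h2 hx.2)).resolve_right fun k => hts (h1.trans (h2.trans k))
    have a2 : Disjoint t s := by
      rcases h.lam s hs t ht with k | k | k
      · obtain ⟨x, hx⟩ := k2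
        exact absurd (h1 (k hx.1)) hx.2
      · exact absurd k hts
      · exact k.symm
    have b1 := hf.sub s U
    have b2 := hf.pos s U
    have c1 : t ⊆ s ∪ U := h1.trans subset_union_right
    have c2 : t ⊆ U \ s := subset_sdiff.2 ⟨h1, a2⟩
    have b3 := hmin (s ∪ U) c1 (union_subset a1 h2)
    have b4 := hmin (U \ s) c2 (sdiff_subset.trans h2)
    have b5 : f U < f (s ∪ U) := by
      by_contra hc
      refine absurd (hspl (s ∪ U) c1 (union_subset a1 h2) (not_lt.1 hc)) (not_le.2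
        (ncard_lt_ncard (ssubset_iff_of_subset ?_ |>.2 ⟨s, ⟨hs, k1, k2⟩, ?_⟩) (toFinite _)))
      · rintro r ⟨hr, ⟨x, hx⟩, ⟨y, hy⟩⟩
        refine ⟨hr, ?_, y, hy.1, fun k => hy.2 (Or.inr k)⟩
        rcases hx.2 with k | k
        · rcases h.nest hr hs hx.1 k with k' | k'
          · exact absurd (Or.inl (k' hy.1)) hy.2
          · exact k1.mono (inter_subset_inter_left _ k')
        · exact ⟨x, hx.1, k⟩
      · rintro ⟨-, -, y, hy⟩
        exact hy.2 (Or.inl hy.1)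
    have b6 : f U < f (U \ s) := by
      by_contra hc
      refine absurd (hspl (U \ s) c2 (sdiff_subset.trans h2) (not_lt.1 hc)) (not_le.2
        (ncard_lt_ncard (ssubset_iff_of_subset ?_ |>.2 ⟨s, ⟨hs, k1, k2⟩, ?_⟩) (toFinite _)))
      · rintro r ⟨hr, ⟨x, hx⟩, ⟨y, hy⟩⟩
        refine ⟨hr, ⟨x, hx.1, hx.2.1⟩, ?_⟩
        by_cases k : y ∈ s
        · rcases h.nest hr hs hy.1 k with k' | k'
          · exact absurd (k' hx.1) hx.2.2
          · exact k2.mono (sdiff_subset_sdiff_left k')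
        · exact ⟨y, hy.1, fun k' => hy.2 ⟨k', k⟩⟩
      · rintro ⟨-, ⟨y, hy⟩, -⟩
        exact hy.2.2 hy.1
    omega

theorem new_split [Finite ε] (h : Dec f K T) {t t' U : Set ε} (ht : t ∈ T) (ht' : t' ∈ T)
    (h0 : t.Nonempty) (h1 : t ⊆ U) (h2 : U ⊆ t') : ∀ a ∈ New T t U, a.Nontrivial →
      ∃ l ∈ New T t U, l ⊆ a ∧ l.Nonempty ∧ (a \ l).Nonempty ∧ a \ l ∈ New T t U := by
  have key : ∀ g : Set ε → Set ε, (∀ s ∈ T, g s ∈ New T t U) →
      (∀ s ∈ T, (g s).Nontrivial → (∃ l ∈ New T t U, l ⊆ g s ∧ l.Nonempty ∧ (g s \ l).Nonempty ∧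
        g s \ l ∈ New T t U) ∨ ∃ l ∈ T, ∃ r ∈ T, l ⊂ s ∧ r ⊂ s ∧ Disjoint (g l) (g r) ∧
          g s = g l ∪ g r) →
      ∀ s ∈ T, (g s).Nontrivial → ∃ l ∈ New T t U, l ⊆ g s ∧ l.Nonempty ∧ (g s \ l).Nonempty ∧
        g s \ l ∈ New T t U := by
    intro g hg hs s
    induction s using (wellFounded_lt (α := Set ε)).induction with
    | _ s ih =>
    intro hsT hn
    rcases hs s hsT hn with k | ⟨l, hl, r, hr, k1, k2, k3, k4⟩
    · exact k
    rcases (g l).eq_empty_or_nonempty with e | e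
    · rw [e, empty_union] at k4
      rw [k4] at hn ⊢
      exact ih r k2 hr hn
    rcases (g r).eq_empty_or_nonempty with e' | e'
    · rw [e', union_empty] at k4
      rw [k4] at hn ⊢
      exact ih l k1 hl hn
    have e2 : g s \ g l = g r := by rw [k4, union_sdiff_left, k3.symm.sdiff_eq_left]
    exact ⟨g l, hg l hl, k4 ▸ subset_union_left, e, e2 ▸ e', e2 ▸ hg r hr⟩
  have sp : ∀ s ∈ T, s.Nontrivial → ∃ l ∈ T, ∃ r ∈ T, l ⊂ s ∧ r ⊂ s ∧ Disjoint l r ∧ s = l ∪ r := by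
    intro s hs hn
    obtain ⟨l, hl, k1, ⟨x, k2⟩, ⟨y, k3⟩, k4⟩ := h.split s hs hn
    exact ⟨l, hl, _, k4, (ssubset_iff_of_subset k1).2 ⟨y, k3.1, k3.2⟩,
      (ssubset_iff_of_subset sdiff_subset).2 ⟨x, k1 k2, fun k => k.2 k2⟩, disjoint_sdiff_right,
      (union_sdiff_cancel k1).symm⟩
  have kp := key (· ∩ U) (fun s hs => Or.inl ⟨s, hs, rfl⟩) fun s hs hn => by
    obtain ⟨l, hl, r, hr, k1, k2, k3, k4⟩ := sp s hs (hn.mono inter_subset_left)
    exact Or.inr ⟨l, hl, r, hr, k1, k2, k3.mono inter_subset_left inter_subset_left,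
      by rw [k4, union_inter_distrib_right]⟩
  have km := key (mm t U) (fun s hs => Or.inr ⟨s, hs, rfl⟩) fun s hs hn => by
    by_cases hts : t ⊆ s
    · rcases hts.eq_or_ssubset with rfl | k
      · left
        have e : mm t U t = t' ∩ U := by rw [mm_pos hts, union_eq_right.2 h1, inter_eq_right.2 h2]
        rw [e] at hn ⊢
        exact kp t' ht' hn
      · obtain ⟨x, hx⟩ := h0
        obtain ⟨y, hy, hy'⟩ := exists_of_ssubset k
        have key2 : ∀ l ∈ T, ∀ r ∈ T, Disjoint l r → s = l ∪ r → r ⊂ s → l ⊂ s → x ∈ l →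
            Disjoint (mm t U l) (mm t U r) ∧ mm t U s = mm t U l ∪ mm t U r := by
          intro l hl r hr k3 k4 k1 k2 hxl
          have a1 : ¬ t ⊆ r := fun a => disjoint_left.1 k3 hxl (a hx)
          have a2 : t ⊆ l := by
            rcases h.lam t ht r hr with a | a | a
            · exact absurd a a1
            · refine (h.nest ht hl hx hxl).resolve_right fun b => hy' ?_
              exact (union_subset b a) (k4 ▸ hy)
            · intro z hz
              exact ((k4 ▸ hts hz : z ∈ l ∪ r)).resolve_right (disjoint_left.1 a hz)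
          rw [mm_pos hts, mm_pos a2, mm_neg a1, k4]
          refine ⟨disjoint_union_left.2 ⟨k3.mono_right sdiff_subset, disjoint_sdiff_right⟩, ?_⟩
          rw [union_assoc, union_assoc, union_sdiff_self, union_comm r U]
        obtain ⟨l, hl, r, hr, k1, k2, k3, k4⟩ := sp s hs ⟨x, hts hx, y, hy, fun e => hy' (e ▸ hx)⟩
        rcases (k4 ▸ hts hx : x ∈ l ∪ r) with a | a
        · exact Or.inr ⟨l, hl, r, hr, k1, k2, key2 l hl r hr k3 k4 k2 k1 a⟩
        · exact Or.inr ⟨r, hr, l, hl, k2, k1,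
            key2 r hr l hl k3.symm (k4.trans (union_comm _ _)) k1 k2 a⟩
    · rw [mm_neg hts] at hn
      obtain ⟨l, hl, r, hr, k1, k2, k3, k4⟩ := sp s hs (hn.mono sdiff_subset)
      refine Or.inr ⟨l, hl, r, hr, k1, k2, ?_⟩
      rw [mm_neg hts, mm_neg fun a => hts (a.trans k1.subset),
        mm_neg fun a => hts (a.trans k2.subset)]
      exact ⟨k3.mono sdiff_subset sdiff_subset, by rw [k4, union_sdiff_distrib]⟩
  rintro a (⟨s, hs, rfl⟩ | ⟨s, hs, rfl⟩)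
  exacts [kp s hs, km s hs]

theorem new_lam (h : Dec f K T) {t U : Set ε} (h0 : t.Nonempty) : ∀ a ∈ New T t U,
    ∀ a' ∈ New T t U, a ⊆ a' ∨ a' ⊆ a ∨ Disjoint a a' := by
  have k : ∀ s s', s ∩ U ⊆ mm t U s' ∨ Disjoint (s ∩ U) (mm t U s') := fun s s' =>
    (mm_cases t U s').imp (inter_subset_right.trans) fun a => a.symm.mono_left inter_subset_right
  rintro a (⟨s, hs, rfl⟩ | ⟨s, hs, rfl⟩) a' (⟨s', hs', rfl⟩ | ⟨s', hs', rfl⟩)
  · exact (h.lam s hs s' hs').imp (inter_subset_inter_left _) (Or.imp (inter_subset_inter_left _)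
      fun a => a.mono inter_subset_left inter_subset_left)
  · exact (k s s').imp id Or.inr
  · exact Or.inr ((k s' s).imp id fun a => a.symm)
  · refine (h.lam s hs s' hs').imp mm_mono (Or.imp mm_mono fun a => ?_)
    obtain ⟨x, hx⟩ := h0
    rw [disjoint_left]
    rintro y (hy | hy) (hy' | hy')
    exacts [disjoint_left.1 a hy.1 hy'.1, hy.2 hy'.1, hy'.2 hy.1,
      disjoint_left.1 a (hy.2 hx) (hy'.2 hx)]

theorem new_good (hf : Subm f) (h : Dec f K T) {t t' U : Set ε} (ht' : t' ∈ T) (h0 : t.Nonempty)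
    (h2 : U ⊆ t') {k : ℕ} (hk : f U < k)
    (hp : ∀ s ∈ T, k ≤ f (s ∩ U) → k ≤ f s) (hm : ∀ s ∈ T, f (mm t U s) ≤ f s)
    (hb : ∀ s ∈ T, k ≤ f (s ∩ U) → k ≤ f (mm t U s) → False) :
    ∃ φ : Set ε × Set ε → Set ε × Set ε, Good f (New T t U) k ⊆ φ '' {x | x ∈ Good f T k ∧
      (k ≤ f (x.1 ∩ U) ∧ k ≤ f (x.2 ∩ U) ∨ k ≤ f (mm t U x.1) ∧ k ≤ f (mm t U x.2))} := by
  refine ⟨fun x => if k ≤ f (x.1 ∩ U) then (x.1 ∩ U, x.2 ∩ U) else (mm t U x.1, mm t U x.2), ?_⟩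
  rintro ⟨a, a'⟩ ⟨ha, ha', haa, hr⟩
  dsimp only at ha ha' haa hr
  have k1 := hr a ha subset_rfl haa
  have k2 := hr a' ha' haa subset_rfl
  have hU : ¬ (a ⊆ U ∧ U ⊆ a') := fun c =>
    absurd (hr U (Or.inl ⟨t', ht', inter_eq_right.2 h2⟩) c.1 c.2) (not_le.2 hk)
  obtain ⟨x, hx⟩ : a.Nonempty := by
    rw [nonempty_iff_ne_empty]
    rintro rfl
    rw [hf.emp] at k1
    omega
  have key : ∀ g : Set ε → Set ε, (∀ s s', s ⊆ s' → g s ⊆ g s') → (∀ s ∈ T, g s ∈ New T t U) →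
      (∀ s ∈ T, k ≤ f (g s) → k ≤ f s) → ∀ s ∈ T, ∀ s' ∈ T, g s = a → g s' = a' →
      (s ⊆ s' ∨ s' ⊆ s) → ∃ s ∈ T, g s = a ∧ (s, s') ∈ Good f T k := by
    intro g g1 g2 g3 s hs s' hs' e e' hn
    have : ∃ s ∈ T, g s = a ∧ s ⊆ s' := by
      rcases hn with c | c
      · exact ⟨s, hs, e, c⟩
      · exact ⟨s', hs', e'.trans (subset_antisymm (e ▸ e' ▸ g1 _ _ c) haa), subset_rfl⟩
    obtain ⟨s, hs, e, c⟩ := this
    exact ⟨s, hs, e, hs, hs', c, fun r hrT c1 c2 =>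
      g3 r hrT (hr _ (g2 r hrT) (e ▸ g1 _ _ c1) (e' ▸ g1 _ _ c2))⟩
  rcases ha with ⟨s, hs, e⟩ | ⟨s, hs, e⟩ <;> rcases ha' with ⟨s', hs', e'⟩ | ⟨s', hs', e'⟩
  · dsimp only at e e'
    obtain ⟨s, hs, e, hg⟩ := key (· ∩ U) (fun _ _ => inter_subset_inter_left _)
      (fun s hs => Or.inl ⟨s, hs, rfl⟩) hp s hs s' hs' e e'
      (h.nest hs hs' (e ▸ hx : x ∈ s ∩ U).1 (e' ▸ haa hx : x ∈ s' ∩ U).1)
    exact ⟨(s, s'), ⟨hg, Or.inl ⟨e ▸ k1, e' ▸ k2⟩⟩, by simp [e, e', k1]⟩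
  · dsimp only at e
    have c : a ⊆ U := e ▸ inter_subset_right
    rcases mm_cases t U s' with d | d
    · exact absurd ⟨c, e' ▸ d⟩ hU
    · exact absurd (c hx) (disjoint_left.1 d (e' ▸ haa hx))
  · dsimp only at e'
    have c : a ⊆ U := haa.trans (e' ▸ inter_subset_right)
    rcases mm_cases t U s with d | d
    · exact absurd ⟨c, (e ▸ d : U ⊆ a).trans haa⟩ hU
    · exact absurd (c hx) (disjoint_left.1 d (e ▸ hx))
  · have c : s ⊆ s' ∨ s' ⊆ s := by
      obtain ⟨y, hy⟩ := h0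
      rcases (e ▸ hx : x ∈ mm t U s) with d | d <;> rcases (e' ▸ haa hx : x ∈ mm t U s') with d' | d'
      exacts [h.nest hs hs' d.1 d'.1, absurd d'.1 d.2, absurd d.1 d'.2,
        h.nest hs hs' (d.2 hy) (d'.2 hy)]
    obtain ⟨s, hs, e, hg⟩ := key (mm t U) (fun _ _ => mm_mono) (fun s hs => Or.inr ⟨s, hs, rfl⟩)
      (fun s hs c => c.trans (hm s hs)) s hs s' hs' e e' c
    have c' : ¬ k ≤ f (s ∩ U) := fun d => hb s hs d (e ▸ k1)
    exact ⟨(s, s'), ⟨hg, Or.inr ⟨e ▸ k1, e' ▸ k2⟩⟩, by simp [e, e', c']⟩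

/-- A decomposition can be made linked without increasing the width. -/
theorem exists_linked [Finite ε] (hf : Subm f) (h : ∃ T, Dec f K T) : ∃ T, Dec f K T ∧ Lnk f T := by
  obtain ⟨T, h, hmin⟩ := exists_lexmin (fun T k => (Good f T k).ncard) (K + 1) _ h
  refine ⟨T, h, fun t ht t' ht' U0 a1 a2 => ?_⟩
  by_contra hc
  push Not at hc
  obtain ⟨U1, hU1, m1⟩ := (wellFounded_lt.onFun (f := f)).has_min {W | t ⊆ W ∧ W ⊆ t'} ⟨U0, a1, a2⟩
  obtain ⟨U, ⟨⟨h1, h2⟩, hU⟩, m2⟩ := (wellFounded_lt.onFun (f := fun W => (Spl T W).ncard)).has_min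
    {W | (t ⊆ W ∧ W ⊆ t') ∧ f W ≤ f U1} ⟨U1, hU1, le_rfl⟩
  have m3 : ∀ W, t ⊆ W → W ⊆ t' → f U ≤ f W := fun W c1 c2 => hU.trans (not_lt.1 (m1 W ⟨c1, c2⟩))
  have cp := fun s hs => copies hf h ht ht' h1 h2 m3
    (fun W c1 c2 c3 => not_lt.1 (m2 W ⟨⟨c1, c2⟩, c3.trans hU⟩)) (s := s) hs
  have hc' : ∀ r ∈ T, t ⊆ r → r ⊆ t' → f U + 1 ≤ f r := fun r hr c1 c2 =>
    (m3 U0 a1 a2).trans_lt (hc r hr c1 c2)
  have c0 := hc' t ht subset_rfl (a1.trans a2)
  have c1 := h.wid t ht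
  have h0 : t.Nonempty := by
    rw [nonempty_iff_ne_empty]
    rintro rfl
    rw [hf.emp] at c0
    omega
  have hD : Dec f K (New T t U) := by
    refine ⟨new_lam h h0, Or.inr ⟨univ, h.top, by rw [mm_pos (subset_univ _), univ_union]⟩,
      new_split h ht ht' h0 h1 h2, ?_⟩
    rintro a (⟨s, hs, rfl⟩ | ⟨s, hs, rfl⟩)
    · have := (cp s hs).1
      have := h.wid s hs
      dsimp only
      omega
    · exact (cp s hs).2.1.trans (h.wid s hs)
  obtain ⟨j, j1, j2, j3, x, hx, hx'⟩ : ∃ j, f U < j ∧ j ≤ K ∧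
      (∀ s ∈ T, f (s ∩ U) < f s → f (mm t U s) < f s → f U < f s → f s ≤ j) ∧ ∃ x ∈ Good f T j,
        ¬ (j ≤ f (x.1 ∩ U) ∧ j ≤ f (x.2 ∩ U) ∨ j ≤ f (mm t U x.1) ∧ j ≤ f (mm t U x.2)) := by
    by_cases hb : {s | s ∈ T ∧ f (s ∩ U) < f s ∧ f (mm t U s) < f s ∧ f U < f s}.Nonempty
    · obtain ⟨s, ⟨hs, b1, b2, b3⟩, hmax⟩ := exists_max_image _ f (toFinite _) hb
      refine ⟨f s, b3, h.wid s hs, fun r hr d1 d2 d3 => hmax r ⟨hr, d1, d2, d3⟩, (s, s),
        ⟨hs, hs, subset_rfl, fun r _ d1 d2 => by rw [subset_antisymm d2 d1]⟩, ?_⟩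
      dsimp only
      omega
    · refine ⟨f U + 1, by omega, by omega, fun r hr d1 d2 d3 => absurd ⟨r, hr, d1, d2, d3⟩ hb,
        (t, t'), ⟨ht, ht', a1.trans a2, hc'⟩, ?_⟩
      dsimp only
      rw [inter_eq_right.2 h2, mm_pos subset_rfl, union_eq_right.2 h1]
      omega
  have key : ∀ k, j ≤ k → (Good f (New T t U) k).ncard ≤ {x | x ∈ Good f T k ∧
      (k ≤ f (x.1 ∩ U) ∧ k ≤ f (x.2 ∩ U) ∨ k ≤ f (mm t U x.1) ∧ k ≤ f (mm t U x.2))}.ncard := by
    intro k hk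
    obtain ⟨φ, hφ⟩ := new_good hf h ht' h0 h2 (k := k) (by omega)
      (fun s hs c => c.trans ((cp s hs).1 (by omega))) (fun s hs => (cp s hs).2.1) fun s hs c d => by
        have := (cp s hs).2.2 (by omega) (by omega)
        have := j3 s hs this.1 this.2 (by omega)
        omega
    exact (ncard_le_ncard hφ (toFinite _)).trans (ncard_image_le (toFinite _))
  refine absurd (hmin _ hD j (by omega) fun k c _ =>
    (key k c.le).trans (ncard_le_ncard (fun _ d => d.1) (toFinite _))) (not_le.2 ?_)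
  exact (key j le_rfl).trans_lt (ncard_lt_ncard
    ((ssubset_iff_of_subset fun _ d => d.1).2 ⟨x, hx, fun d => hx' d.2⟩) (toFinite _))

end Pool.Agent.MP_9d78a0_co.pl

end MrgPart1

-- ======== part 2: formerly Pool.Agent.MP_9d78a0_co.pl.Hyper
section MrgPart2

/-! Decompositions of the set of ordered pairs of vertices of a graph. -/

set_option autoImplicit false

namespace Pool.Agent.MP_9d78a0_co.pl

open Set

theorem dec_of_split {ε : Type} [Finite ε] {f : Set ε → ℕ} {K : ℕ}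
    (h : ∀ X, f X ≤ K → X.Nontrivial →
      ∃ L ⊆ X, L.Nonempty ∧ (X \ L).Nonempty ∧ f L ≤ K ∧ f (X \ L) ≤ K) (h0 : f univ ≤ K) :
    ∃ T, Dec f K T := by
  have key : ∀ X, f X ≤ K → ∃ T : Set (Set ε), (∀ s ∈ T, s ⊆ X) ∧ X ∈ T ∧
      (∀ s ∈ T, ∀ t ∈ T, s ⊆ t ∨ t ⊆ s ∨ Disjoint s t) ∧
      (∀ s ∈ T, s.Nontrivial → ∃ l ∈ T, l ⊆ s ∧ l.Nonempty ∧ (s \ l).Nonempty ∧ s \ l ∈ T) ∧
      ∀ s ∈ T, f s ≤ K := by
    intro X
    induction X using (wellFounded_lt (α := Set ε)).induction with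
    | _ X ih =>
    intro hX
    by_cases hn : X.Nontrivial
    · obtain ⟨L, h1, ⟨x, h2⟩, ⟨y, h3⟩, h4, h5⟩ := h X hX hn
      obtain ⟨T1, a1, a2, a3, a4, a5⟩ := ih L ((ssubset_iff_of_subset h1).2 ⟨y, h3.1, h3.2⟩) h4
      obtain ⟨T2, b1, b2, b3, b4, b5⟩ := ih (X \ L)
        ((ssubset_iff_of_subset sdiff_subset).2 ⟨x, h1 h2, fun k => k.2 h2⟩) h5
      have c : ∀ s ∈ insert X (T1 ∪ T2), s ⊆ X := by
        rintro s (rfl | hs | hs)
        exacts [subset_rfl, (a1 s hs).trans h1, (b1 s hs).trans sdiff_subset]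
      refine ⟨insert X (T1 ∪ T2), c, mem_insert _ _, fun s hs t ht => ?_, ?_, ?_⟩
      · rcases hs with rfl | hs
        · exact Or.inr (Or.inl (c t ht))
        rcases ht with rfl | ht
        · exact Or.inl (c s (Or.inr hs))
        rcases hs with hs | hs <;> rcases ht with ht | ht
        exacts [a3 s hs t ht, Or.inr (Or.inr (disjoint_sdiff_right.mono (a1 s hs) (b1 t ht))),
          Or.inr (Or.inr (disjoint_sdiff_left.mono (b1 s hs) (a1 t ht))), b3 s hs t ht]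
      · rintro s (rfl | hs | hs) hs'
        · exact ⟨L, Or.inr (Or.inl a2), h1, ⟨x, h2⟩, ⟨y, h3⟩, Or.inr (Or.inr b2)⟩
        · obtain ⟨l, k1, k2, k3, k4, k5⟩ := a4 s hs hs'
          exact ⟨l, Or.inr (Or.inl k1), k2, k3, k4, Or.inr (Or.inl k5)⟩
        · obtain ⟨l, k1, k2, k3, k4, k5⟩ := b4 s hs hs'
          exact ⟨l, Or.inr (Or.inr k1), k2, k3, k4, Or.inr (Or.inr k5)⟩
      · rintro s (rfl | hs | hs)
        exacts [hX, a5 s hs, b5 s hs]
    · refine ⟨{X}, ?_, rfl, ?_, ?_, ?_⟩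
      · rintro s rfl
        exact subset_rfl
      · rintro s rfl t rfl
        exact Or.inl subset_rfl
      · rintro s rfl hs
        exact absurd hs hn
      · rintro s rfl
        exact hX
  obtain ⟨T, -, a2, a3, a4, a5⟩ := key univ h0
  exact ⟨T, a3, a2, a4, a5⟩

variable {V : Type} {G : SimpleGraph V}

/-- the vertices of a pair that is a loop or an edge -/
def inc (G : SimpleGraph V) (p : V × V) : Set V :=
  {v | (v = p.1 ∨ v = p.2) ∧ (p.1 = p.2 ∨ G.Adj p.1 p.2)}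

/-- the vertices of a set of pairs -/
def VX (G : SimpleGraph V) (X : Set (V × V)) : Set V := {v | ∃ p ∈ X, v ∈ inc G p}

/-- the boundary of a set of pairs -/
def bd (G : SimpleGraph V) (X : Set (V × V)) : Set V := VX G X ∩ VX G Xᶜ

/-- the size of the boundary -/
noncomputable def fb (G : SimpleGraph V) (X : Set (V × V)) : ℕ := (bd G X).ncard

theorem VX_mono {X Y : Set (V × V)} (h : X ⊆ Y) : VX G X ⊆ VX G Y :=
  fun _ ⟨p, hp, hv⟩ => ⟨p, h hp, hv⟩

theorem VX_union (X Y : Set (V × V)) : VX G (X ∪ Y) = VX G X ∪ VX G Y := by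
  ext v
  simp only [VX, mem_union, mem_ofPred_eq, or_and_right, exists_or]

theorem inc_self (v : V) : v ∈ inc G (v, v) := ⟨Or.inl rfl, Or.inl rfl⟩

theorem inc_adj {p : V × V} {u v : V} (hu : u ∈ inc G p) (hv : v ∈ inc G p) :
    u = v ∨ G.Adj u v ∧ (p = (u, v) ∨ p = (v, u)) := by
  obtain ⟨a, b⟩ := p
  obtain ⟨rfl | rfl, h | h⟩ := hu <;> obtain ⟨rfl | rfl, -⟩ := hv
  exacts [Or.inl rfl, Or.inl h, Or.inl rfl, Or.inr ⟨h, Or.inl rfl⟩, Or.inl h.symm, Or.inl rfl,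
    Or.inr ⟨h.symm, Or.inr rfl⟩, Or.inl rfl]

theorem bd_compl (X : Set (V × V)) : bd G Xᶜ = bd G X := by rw [bd, compl_compl, inter_comm, bd]

theorem bd_univ : bd G univ = ∅ := by simp [bd, VX]

theorem subm [Finite V] : Subm (fb G) := by
  have sub : ∀ A B, fb G (A ∩ B) + fb G (A ∪ B) ≤ fb G A + fb G B := by
    intro A B
    unfold fb
    rw [← ncard_union_add_ncard_inter, ← ncard_union_add_ncard_inter (bd G A)]
    refine add_le_add (ncard_le_ncard ?_) (ncard_le_ncard ?_)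
    · rintro v (⟨⟨p, hp, k⟩, q, hq, k'⟩ | ⟨⟨p, hp, k⟩, q, hq, k'⟩)
      · rw [compl_inter] at hq
        exact hq.imp (fun c => ⟨⟨p, hp.1, k⟩, q, c, k'⟩) fun c => ⟨⟨p, hp.2, k⟩, q, c, k'⟩
      · rw [compl_union] at hq
        exact hp.imp (fun c => ⟨⟨p, c, k⟩, q, hq.1, k'⟩) fun c => ⟨⟨p, c, k⟩, q, hq.2, k'⟩
    · rintro v ⟨⟨⟨p, hp, k⟩, -⟩, -, q, hq, k'⟩
      rw [compl_union] at hq
      exact ⟨⟨⟨p, hp.1, k⟩, q, hq.1, k'⟩, ⟨p, hp.2, k⟩, q, hq.2, k'⟩
  refine ⟨by simp [fb, bd, VX], sub, fun A B => ?_⟩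
  have h := sub A Bᶜ
  have e : A ∪ Bᶜ = (B \ A)ᶜ := by rw [sdiff_eq, compl_inter, compl_compl, union_comm]
  rw [e] at h
  simpa only [fb, bd_compl, ← sdiff_eq] using h

open MP_7be75d_co in
theorem balanced [Fintype V] {σ : ℕ} (h : Sep G σ) (Z : Set V) (hZ : 4 * σ < Z.ncard) :
    ∃ Y C : Set V, Y.ncard ≤ σ ∧ (∀ x ∈ C, ∀ y, G.Adj x y → y ∈ C ∨ y ∈ Y) ∧
      Z.ncard ≤ 4 * (Z ∩ C).ncard ∧ 4 * (Z ∩ C).ncard ≤ 3 * Z.ncard := by
  classical
  have h1 := h Z.toFinset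
  unfold Linked at h1
  push Not at h1
  obtain ⟨Y, hY, h2⟩ := h1
  obtain ⟨C, ⟨c1, c2⟩, hmax⟩ := Set.Finite.exists_maximal (s := {C : Set V |
    (∀ x ∈ C, ∀ y, G.Adj x y → y ∈ C ∨ y ∈ (Y : Set V)) ∧ 4 * (Z ∩ C).ncard < Z.ncard})
    (toFinite _) ⟨∅, by simp, by simp; omega⟩
  obtain ⟨v, hv, hv'⟩ : ∃ v, v ∉ C ∧ v ∉ Y := by
    by_contra hc
    push Not at hc
    have a1 : Z ⊆ Z ∩ C ∪ Y := fun v hv => by
      by_cases k : v ∈ C
      exacts [Or.inl ⟨hv, k⟩, Or.inr (hc v k)]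
    have a2 := (ncard_le_ncard a1).trans (ncard_union_le _ _)
    rw [ncard_coe_finset] at a2
    omega
  have hvU : v ∈ Finset.univ \ Y := by simpa using hv'
  have a1 : ∀ x ∈ C ∪ (comp G (Finset.univ \ Y) v : Set V), ∀ y, G.Adj x y →
      y ∈ C ∪ (comp G (Finset.univ \ Y) v : Set V) ∨ y ∈ (Y : Set V) := by
    rintro x (hx | hx) y hxy
    · exact (c1 x hx y hxy).imp Or.inl id
    · by_cases k : y ∈ Y
      exacts [Or.inr k, Or.inl (Or.inr (comp_closed hx (by simpa using k) hxy))]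
  refine ⟨Y, _, by rwa [ncard_coe_finset], a1, not_lt.1 fun k => hv
    (hmax ⟨a1, k⟩ subset_union_left (Or.inr (self_mem_comp hvU))), ?_⟩
  have a2 := h2 v hvU
  have a3 : (Z ∩ (comp G (Finset.univ \ Y) v : Set V)).ncard =
      (Z.toFinset ∩ comp G (Finset.univ \ Y) v).card := by
    rw [← ncard_coe_finset, Finset.coe_inter, coe_toFinset]
  have a4 := ncard_union_le (Z ∩ C) (Z ∩ (comp G (Finset.univ \ Y) v : Set V))
  rw [← ncard_eq_toFinset_card'] at a2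
  rw [inter_union_distrib_left]
  omega

open MP_7be75d_co in
/-- Graphs with balanced separators have linked decompositions of bounded width. -/
theorem exists_dec [Fintype V] {σ : ℕ} (h : Sep G σ) :
    ∃ T, Dec (fb G) (4 * σ + 2) T ∧ Lnk (fb G) T := by
  refine exists_linked subm (dec_of_split (fun X hX hn => ?_) (by simp [fb, bd_univ]))
  have hp : ∀ p : V × V, (inc G p).ncard ≤ 2 := fun p =>
    (ncard_le_ncard (t := {p.1, p.2}) fun v hv => hv.1).trans (ncard_insert_le _ _ |>.trans (by simp))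
  rcases le_or_gt (fb G X) (4 * σ) with k | k
  · obtain ⟨p, hp1, q, hq, hpq⟩ := hn
    refine ⟨{p}, singleton_subset_iff.2 hp1, singleton_nonempty _, ⟨q, hq, hpq.symm⟩, ?_, ?_⟩
    · refine le_trans (ncard_le_ncard (t := inc G p) ?_) ((hp p).trans (by omega))
      rintro v ⟨⟨r, rfl, hv⟩, -⟩
      exact hv
    · refine le_trans (ncard_le_ncard (t := bd G X ∪ inc G p) ?_)
        ((ncard_union_le _ _).trans (add_le_add k (hp p)))
      rintro v ⟨⟨r, hr, hv⟩, s, hs, hv'⟩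
      by_cases c : s = p
      · exact Or.inr (c ▸ hv')
      · exact Or.inl ⟨⟨r, hr.1, hv⟩, s, fun d => hs ⟨d, c⟩, hv'⟩
  · obtain ⟨Y, C, h1, h2, h3, h4⟩ := balanced h (bd G X) k
    unfold fb at *
    have a0 : ∀ p v w, v ∈ inc G p → w ∈ inc G p → w ∈ C → v ∈ C ∨ v ∈ Y := by
      intro p v w hv hw hc
      rcases inc_adj hw hv with rfl | d
      exacts [Or.inl hc, h2 _ hc _ d.1]
    have a1 := ncard_inter_add_ncard_sdiff_eq_ncard (bd G X) C
    refine ⟨{p | p ∈ X ∧ ∃ w ∈ inc G p, w ∈ C}, fun _ c => c.1, ?_, ?_, ?_, ?_⟩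
    · obtain ⟨v, ⟨⟨p, hp, hv⟩, -⟩, hc⟩ := nonempty_of_ncard_ne_zero (s := bd G X ∩ C) (by omega)
      exact ⟨p, hp, v, hv, hc⟩
    · obtain ⟨v, ⟨⟨⟨p, hp, hv⟩, -⟩, hc⟩, hc'⟩ :=
        exists_mem_notMem_of_ncard_lt_ncard (s := Y) (t := bd G X \ C) (by omega)
      exact ⟨p, hp, fun ⟨_, w, hw, d⟩ => (a0 p v w hv hw d).elim hc hc'⟩
    · refine le_trans (ncard_le_ncard (t := bd G X ∩ C ∪ Y) ?_) ((ncard_union_le _ _).trans (by omega))
      rintro v ⟨⟨p, ⟨hp, w, hw, d⟩, hv⟩, q, hq, hv'⟩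
      exact (a0 p v w hv hw d).imp
        (fun c => ⟨⟨⟨p, hp, hv⟩, q, fun e => hq ⟨e, v, hv', c⟩, hv'⟩, c⟩) id
    · refine le_trans (ncard_le_ncard (t := bd G X \ C ∪ Y) ?_) ((ncard_union_le _ _).trans (by omega))
      rintro v ⟨⟨p, hp, hv⟩, q, hq, hv'⟩
      have c : v ∉ C := fun c => hp.2 ⟨hp.1, v, hv, c⟩
      by_cases e : q ∈ X
      · obtain ⟨-, w, hw, d⟩ := not_not.1 fun d => hq ⟨e, d⟩
        exact Or.inr ((a0 q v w hv' hw d).resolve_left c)
      · exact Or.inl ⟨⟨⟨p, hp.1, hv⟩, q, e, hv'⟩, c⟩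

end Pool.Agent.MP_9d78a0_co.pl

end MrgPart2

-- ======== part 3: formerly Pool.Agent.MP_9d78a0_co.pl.Piece
section MrgPart3

/-! Rooted pieces of coloured graphs and their minor order. -/

set_option autoImplicit false

namespace Pool.Agent.MP_9d78a0_co.pl

open Set

/-- finite graphs with coloured vertices -/
structure CG (Γ : Type) where
  V : Type
  fin : Finite V
  G : SimpleGraph V
  c : V → Γ

instance {Γ : Type} (S : CG Γ) : Finite S.V := S.fin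

/-- the graph formed by a set of pairs -/
def GX {V : Type} (G : SimpleGraph V) (X : Set (V × V)) : SimpleGraph V where
  Adj u v := G.Adj u v ∧ ((u, v) ∈ X ∨ (v, u) ∈ X)
  symm := ⟨fun _ _ h => ⟨h.1.symm, h.2.symm⟩⟩
  loopless := ⟨fun _ h => h.1.ne rfl⟩

section

variable {V : Type} {G : SimpleGraph V} {X Y : Set (V × V)}

theorem GX_mono (h : X ⊆ Y) : GX G X ≤ GX G Y := fun _ _ k => ⟨k.1, k.2.imp (@h _) (@h _)⟩

theorem GX_mem {u v : V} (h : (GX G X).Adj u v) : u ∈ VX G X := by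
  rcases h.2 with k | k
  exacts [⟨_, k, Or.inl rfl, Or.inr h.1⟩, ⟨_, k, Or.inr rfl, Or.inr h.1.symm⟩]

theorem conn_mono {G' : SimpleGraph V} {S : Set V} (h : Conn G S) (hle : G ≤ G') : Conn G' S :=
  ⟨h.1, fun u hu v hv =>
    Link.map (G' := G') id (fun _ ha _ hb hab => Link.single ha hb (hle hab)) (h.2 u hu v hv)⟩

theorem conn_union {S T : Set V} (h : Conn G S) (h' : Conn G T) {x : V} (hx : x ∈ S)
    (hx' : x ∈ T) : Conn G (S ∪ T) := by
  have k : ∀ v ∈ S ∪ T, Link G (S ∪ T) x v := by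
    rintro v (hv | hv)
    exacts [(h.2 x hx v hv).mono subset_union_left, (h'.2 x hx' v hv).mono subset_union_right]
  exact ⟨⟨x, Or.inl hx⟩, fun u hu v hv => (k u hu).symm.trans (k v hv)⟩

theorem conn_eq_or {S : Set V} (h : Conn G S) {x y : V} (hx : x ∈ S) (hy : y ∈ S) :
    x = y ∨ ∃ z, G.Adj x z := by
  rcases (h.2 x hx y hy).cases_head with k | ⟨z, k, -⟩
  exacts [Or.inl k, Or.inr ⟨z, k.2.2⟩]

end

variable {Γ : Type} {S S' S'' : CG Γ} {X L R : Set (S.V × S.V)} {X' L' R' : Set (S'.V × S'.V)}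
  {X'' : Set (S''.V × S''.V)}

/-- a model of one piece in another -/
structure PM (S : CG Γ) (X : Set (S.V × S.V)) (S' : CG Γ) (X' : Set (S'.V × S'.V))
    (B : S.V → Set S'.V) : Prop where
  sub : ∀ v ∈ VX S.G X, B v ⊆ VX S'.G X'
  conn : ∀ v ∈ VX S.G X, Conn (GX S'.G X') (B v)
  disj : ∀ u ∈ VX S.G X, ∀ v ∈ VX S.G X, u ≠ v → Disjoint (B u) (B v)
  adj : ∀ u v, (GX S.G X).Adj u v → ∃ x ∈ B u, ∃ y ∈ B v, (GX S'.G X').Adj x y
  col : ∀ v, (v, v) ∈ X → ∃ u ∈ B v, (u, u) ∈ X' ∧ S'.c u = S.c v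

theorem PM.trans {B : S.V → Set S'.V} {C : S'.V → Set S''.V} (h : PM S X S' X' B)
    (h' : PM S' X' S'' X'' C) : PM S X S'' X'' fun w => ⋃ v ∈ B w, C v := by
  have k : Model ((GX S.G X).induce (VX S.G X)) (GX S'.G X') (VX S'.G X') fun w => B w :=
    ⟨fun w => h.sub w w.2, fun w => h.conn w w.2,
      fun w w' e => h.disj w w.2 w' w'.2 fun c => e (Subtype.ext c), fun w w' e => h.adj w w' e⟩
  obtain ⟨k1, k2, k3, k4⟩ := k.comp C h'.sub h'.conn h'.disj fun v _ v' _ => h'.adj v v'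
  refine ⟨fun v hv => k1 ⟨v, hv⟩, fun v hv => k2 ⟨v, hv⟩,
    fun u hu v hv e => k3 ⟨u, hu⟩ ⟨v, hv⟩ fun c => e (congrArg Subtype.val c),
    fun u v e => k4 ⟨u, GX_mem e⟩ ⟨v, GX_mem e.symm⟩ e, fun v hv => ?_⟩
  obtain ⟨u, a1, a2, a3⟩ := h.col v hv
  obtain ⟨w, b1, b2, b3⟩ := h'.col u a2
  exact ⟨w, mem_biUnion a1 b1, b2, b3.trans a3⟩

/-- the order on pieces with numbered roots -/
def RM (S : CG Γ) (X : Set (S.V × S.V)) (S' : CG Γ) (X' : Set (S'.V × S'.V)) {ι : Type}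
    (ρ : ι → S.V) (ρ' : ι → S'.V) : Prop := ∃ B, PM S X S' X' B ∧ ∀ i, ρ' i ∈ B (ρ i)

theorem RM.trans {ι : Type} {ρ : ι → S.V} {ρ' : ι → S'.V} {ρ'' : ι → S''.V}
    (h : RM S X S' X' ρ ρ') (h' : RM S' X' S'' X'' ρ' ρ'') : RM S X S'' X'' ρ ρ'' := by
  obtain ⟨B, h1, h2⟩ := h
  obtain ⟨C, h3, h4⟩ := h'
  exact ⟨_, h1.trans h3, fun i => mem_biUnion (h2 i) (h4 i)⟩

/-- the order on pieces -/
def ULe (S : CG Γ) (X : Set (S.V × S.V)) (S' : CG Γ) (X' : Set (S'.V × S'.V)) : Prop :=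
  ∃ B, PM S X S' X' B ∧ (∀ r ∈ bd S.G X, ∃ r' ∈ bd S'.G X', r' ∈ B r) ∧ fb S.G X = fb S'.G X'

theorem ULe.trans (h : ULe S X S' X') (h' : ULe S' X' S'' X'') : ULe S X S'' X'' := by
  obtain ⟨B, h1, h2, h3⟩ := h
  obtain ⟨C, h4, h5, h6⟩ := h'
  refine ⟨_, h1.trans h4, fun r hr => ?_, h3.trans h6⟩
  obtain ⟨r', a1, a2⟩ := h2 r hr
  obtain ⟨r'', b1, b2⟩ := h5 r' a1
  exact ⟨r'', b1, mem_biUnion a2 b2⟩

theorem ULe.refl (S : CG Γ) (X : Set (S.V × S.V)) : ULe S X S X :=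
  ⟨fun v => {v}, ⟨fun _ hv => singleton_subset_iff.2 hv, fun v _ => conn_singleton _ v,
    fun _ _ _ _ e => disjoint_singleton.2 e, fun u v e => ⟨u, rfl, v, rfl, e⟩,
    fun v hv => ⟨v, rfl, hv, rfl⟩⟩, fun r hr => ⟨r, hr, rfl⟩, rfl⟩

theorem ULe.lift (h : ULe S X S' X') {ι : Type} {ρ : ι → S.V} (hρ : range ρ = bd S.G X) :
    ∃ ρ' : ι → S'.V, range ρ' = bd S'.G X' ∧ RM S X S' X' ρ ρ' := by
  obtain ⟨B, h1, h2, h3⟩ := h
  choose σ a1 a2 using h2
  have hm : ∀ i, ρ i ∈ bd S.G X := fun i => hρ ▸ mem_range_self i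
  refine ⟨fun i => σ _ (hm i), ?_, B, h1, fun i => a2 _ _⟩
  have hinj : Function.Injective fun r : bd S.G X => σ r r.2 := fun r r' e => by
    by_contra c
    exact disjoint_left.1 (h1.disj r r.2.1 r' r'.2.1 fun d => c (Subtype.ext d)) (a2 r r.2)
      ((show σ r r.2 = σ r' r'.2 from e) ▸ a2 r' r'.2)
  have e : range (fun i => σ _ (hm i)) = range fun r : bd S.G X => σ r r.2 := by
    refine subset_antisymm (range_subset_iff.2 fun i => ⟨⟨_, hm i⟩, rfl⟩) ?_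
    rintro _ ⟨⟨r, hr⟩, rfl⟩
    obtain ⟨i, rfl⟩ : r ∈ range ρ := hρ ▸ hr
    exact ⟨i, rfl⟩
  rw [e]
  refine eq_of_subset_of_ncard_le (range_subset_iff.2 fun r => a1 _ _) ?_
  rw [← image_univ, ncard_image_of_injective _ hinj, ncard_univ, Nat.card_coe_set_eq]
  exact h3.ge

theorem bd_sub_union {V : Type} {G : SimpleGraph V} {L R : Set (V × V)} :
    bd G (L ∪ R) ⊆ bd G L ∪ bd G R := by
  rintro v ⟨⟨p, hp | hp, hv⟩, q, hq, hv'⟩
  exacts [Or.inl ⟨⟨p, hp, hv⟩, q, fun c => hq (Or.inl c), hv'⟩,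
    Or.inr ⟨⟨p, hp, hv⟩, q, fun c => hq (Or.inr c), hv'⟩]

theorem inter_sub_bd {V : Type} {G : SimpleGraph V} {L R : Set (V × V)} (h : Disjoint L R) {v : V}
    (h1 : v ∈ VX G L) (h2 : v ∈ VX G R) : v ∈ bd G L ∧ v ∈ bd G R :=
  ⟨⟨h1, VX_mono h.symm.subset_compl_right h2⟩, h2, VX_mono h.subset_compl_right h1⟩

/-- Models of the two halves fit together. -/
theorem glue {ι κ : Type} {ρ : ι → S.V} {ρ' : ι → S'.V} {τ : κ → S.V} {τ' : κ → S'.V}
    (hd : Disjoint L R) (hd' : Disjoint L' R') (h1 : range ρ = bd S.G L) (h2 : range τ = bd S.G R)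
    (h1' : range ρ' = bd S'.G L') (h2' : range τ' = bd S'.G R') (hL : RM S L S' L' ρ ρ')
    (hR : RM S R S' R' τ τ') (p1 : ∀ i j, ρ i = τ j ↔ ρ' i = τ' j)
    (p2 : ∀ i, ρ i ∈ bd S.G (L ∪ R) → ρ' i ∈ bd S'.G (L' ∪ R'))
    (p3 : ∀ j, τ j ∈ bd S.G (L ∪ R) → τ' j ∈ bd S'.G (L' ∪ R'))
    (p4 : fb S.G (L ∪ R) = fb S'.G (L' ∪ R')) : ULe S (L ∪ R) S' (L' ∪ R') := by
  obtain ⟨B, hB, hρ⟩ := hL
  obtain ⟨C, hC, hτ⟩ := hR
  have m1 : ∀ i, ρ i ∈ VX S.G L := fun i => (h1 ▸ mem_range_self i : ρ i ∈ bd S.G L).1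
  have m2 : ∀ i, τ i ∈ VX S.G R := fun i => (h2 ▸ mem_range_self i : τ i ∈ bd S.G R).1
  have cross : ∀ u ∈ VX S.G L, ∀ v ∈ VX S.G R, ∀ x ∈ B u, x ∈ C v → u = v := by
    intro u hu v hv x hx hx'
    obtain ⟨a1, a2⟩ := inter_sub_bd hd' (hB.sub u hu hx) (hC.sub v hv hx')
    obtain ⟨i, rfl⟩ : x ∈ range ρ' := h1' ▸ a1
    obtain ⟨j, hj⟩ : ρ' i ∈ range τ' := h2' ▸ a2
    have e1 : u = ρ i := by
      by_contra c
      exact disjoint_left.1 (hB.disj u hu _ (m1 i) c) hx (hρ i)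
    have e2 : v = τ j := by
      by_contra c
      exact disjoint_left.1 (hC.disj v hv _ (m2 j) c) hx' (hj ▸ hτ j)
    rw [e1, e2, p1, hj]
  have gl := GX_mono (G := S'.G) (subset_union_left (s := L') (t := R'))
  have gr := GX_mono (G := S'.G) (subset_union_right (s := L') (t := R'))
  refine ⟨fun v => {x | v ∈ VX S.G L ∧ x ∈ B v} ∪ {x | v ∈ VX S.G R ∧ x ∈ C v},
    ⟨?_, fun v hv => ?_, fun u _ v _ e => ?_, ?_, ?_⟩, fun r hr => ?_, p4⟩
  · rintro v - x (hx | hx)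
    exacts [VX_mono subset_union_left (hB.sub v hx.1 hx.2),
      VX_mono subset_union_right (hC.sub v hx.1 hx.2)]
  · by_cases a : v ∈ VX S.G L <;> by_cases b : v ∈ VX S.G R
    · obtain ⟨a1, a2⟩ := inter_sub_bd hd a b
      obtain ⟨i, rfl⟩ : v ∈ range ρ := h1 ▸ a1
      obtain ⟨j, hj⟩ : ρ i ∈ range τ := h2 ▸ a2
      simp only [a, b, true_and, ofPred_mem_eq]
      exact conn_union (conn_mono (hB.conn _ a) gl) (conn_mono (hC.conn _ b) gr) (hρ i)
        ((p1 i j).1 hj.symm ▸ hj ▸ hτ j)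
    · simpa [a, b] using conn_mono (hB.conn _ a) gl
    · simpa [a, b] using conn_mono (hC.conn _ b) gr
    · rw [VX_union] at hv
      exact absurd hv (not_or.2 ⟨a, b⟩)
  · rw [disjoint_left]
    rintro x (hx | hx) (hy | hy)
    exacts [disjoint_left.1 (hB.disj u hx.1 v hy.1 e) hx.2 hy.2, e (cross u hx.1 v hy.1 x hx.2 hy.2),
      e (cross v hy.1 u hx.1 x hy.2 hx.2).symm, disjoint_left.1 (hC.disj u hx.1 v hy.1 e) hx.2 hy.2]
  · intro u v e
    have : (GX S.G L).Adj u v ∨ (GX S.G R).Adj u v := by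
      rcases e.2 with (c | c) | (c | c)
      exacts [Or.inl ⟨e.1, Or.inl c⟩, Or.inr ⟨e.1, Or.inl c⟩, Or.inl ⟨e.1, Or.inr c⟩,
        Or.inr ⟨e.1, Or.inr c⟩]
    rcases this with c | c
    · obtain ⟨x, hx, y, hy, d⟩ := hB.adj u v c
      exact ⟨x, Or.inl ⟨GX_mem c, hx⟩, y, Or.inl ⟨GX_mem c.symm, hy⟩, gl d⟩
    · obtain ⟨x, hx, y, hy, d⟩ := hC.adj u v c
      exact ⟨x, Or.inr ⟨GX_mem c, hx⟩, y, Or.inr ⟨GX_mem c.symm, hy⟩, gr d⟩
  · rintro v (hv | hv)
    · obtain ⟨u, a1, a2, a3⟩ := hB.col v hv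
      exact ⟨u, Or.inl ⟨⟨_, hv, inc_self v⟩, a1⟩, Or.inl a2, a3⟩
    · obtain ⟨u, a1, a2, a3⟩ := hC.col v hv
      exact ⟨u, Or.inr ⟨⟨_, hv, inc_self v⟩, a1⟩, Or.inr a2, a3⟩
  · rcases bd_sub_union hr with c | c
    · obtain ⟨i, rfl⟩ : r ∈ range ρ := h1 ▸ c
      exact ⟨_, p2 i hr, Or.inl ⟨m1 i, hρ i⟩⟩
    · obtain ⟨j, rfl⟩ : r ∈ range τ := h2 ▸ c
      exact ⟨_, p3 j hr, Or.inr ⟨m2 j, hτ j⟩⟩

theorem conn_coe {V : Type} {G : SimpleGraph V} {P : Finset V} (h : MP_7be75d_co.Conn G P) :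
    Conn G (P : Set V) := (conn_iff _ _).1 h.connected

open MP_7be75d_co in
/-- A piece is below a larger piece to which it is linked (Menger). -/
theorem link {Y : Set (S.V × S.V)} (hXY : X ⊆ Y) (h : ∀ U, X ⊆ U → U ⊆ Y → fb S.G X ≤ fb S.G U)
    (he : fb S.G X = fb S.G Y) : ULe S X S Y := by
  classical
  have := Fintype.ofFinite S.V
  have hc : Fintype.card (bd S.G X) = fb S.G X := by
    rw [← Nat.card_eq_fintype_card, Nat.card_coe_set_eq, fb]
  obtain ⟨P, hP, hp⟩ := menger_from (G := GX S.G (Y \ X)) (U := Finset.univ)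
    (B := (bd S.G Y).toFinset) (fun r : bd S.G X => r.1) (by
      intro Z hZ
      by_contra hn
      let W : Set S.V := {v | ∃ a ∈ bd S.G X, a ∉ Z ∧ R (GX S.G (Y \ X)) (Finset.univ \ Z) a v}
      have hW : ∀ v ∈ W, v ∉ Z := by
        rintro v ⟨a, -, a2, a3⟩
        simpa using a3.mem (by simpa using a2)
      refine absurd (h (X ∪ {p | p ∈ Y \ X ∧ ∃ w ∈ inc S.G p, w ∈ W}) subset_union_left
        (union_subset hXY fun _ c => c.1.1)) (not_le.2 (lt_of_le_of_lt ?_ (hc ▸ hZ)))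
      rw [← ncard_coe_finset]
      refine ncard_le_ncard ?_
      rintro v ⟨⟨p, hp, hv⟩, q, hq, hv'⟩
      by_contra hvZ
      have a : v ∈ W := by
        rcases hp with hp | ⟨hp, w, hw, c⟩
        · exact ⟨v, ⟨⟨p, hp, hv⟩, q, fun c => hq (Or.inl c), hv'⟩, hvZ, R.refl⟩
        · rcases inc_adj hw hv with rfl | d
          · exact c
          · obtain ⟨a, a1, a2, a3⟩ := id c
            refine ⟨a, a1, a2, a3.tail ⟨d.1, d.2.imp (fun e : p = (w, v) => e ▸ hp)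
              (fun e : p = (v, w) => e ▸ hp)⟩ ?_ ?_⟩
            · simpa using hW w c
            · simpa using hvZ
      have b : q ∉ Y := fun c => hq (Or.inr ⟨⟨c, fun d => hq (Or.inl d)⟩, v, hv', a⟩)
      obtain ⟨a, a1, a2, a3⟩ := a
      exact hn ⟨a, Finset.mem_image.2 ⟨⟨a, a1⟩, Finset.mem_univ _, rfl⟩, v,
        mem_toFinset.2 ⟨⟨p, hp.elim (@hXY p) fun c => c.1.1, hv⟩, q, b, hv'⟩, by simpa using a2, a3⟩)
  have hm : ∀ v, v ∈ (if h : v ∈ bd S.G X then (P ⟨v, h⟩ : Set S.V) else {v}) := fun v => by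
    split_ifs with c
    exacts [hp ⟨v, c⟩, rfl]
  have hx : ∀ r, ∀ x ∈ P r, x = r.1 ∨ x ∈ VX S.G (Y \ X) := fun r x c =>
    (conn_eq_or (conn_coe (hP.conn r)) c (hp r)).imp id fun ⟨_, d⟩ => GX_mem d
  have hx' : ∀ r, ∀ x ∈ P r, x ∈ VX S.G X → x ∈ bd S.G X := fun r x c d =>
    (hx r x c).elim (fun e => e ▸ r.2) fun e => ⟨d, VX_mono (fun _ k => k.2) e⟩
  refine ⟨fun v => if h : v ∈ bd S.G X then (P ⟨v, h⟩ : Set S.V) else {v},
    ⟨fun v hv => ?_, fun v _ => ?_, fun u hu v hv e => ?_,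
      fun u v e => ⟨u, hm u, v, hm v, GX_mono hXY e⟩, fun v hv => ⟨v, hm v, hXY hv, rfl⟩⟩,
    fun r hr => ?_, he⟩
  · split_ifs with c
    · intro x k
      exact (hx _ x k).elim (fun e => e ▸ VX_mono hXY hv) (@VX_mono _ _ _ _ sdiff_subset x)
    · exact singleton_subset_iff.2 (VX_mono hXY hv)
  · split_ifs with c
    exacts [conn_mono (conn_coe (hP.conn _)) (GX_mono sdiff_subset), conn_singleton _ _]
  · split_ifs with c d d
    · exact Finset.disjoint_coe.2 (hP.disj _ _ fun k => e (congrArg Subtype.val k))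
    · exact disjoint_singleton_right.2 fun k => d (hx' _ v k hv)
    · exact disjoint_singleton_left.2 fun k => c (hx' _ u k hu)
    · exact disjoint_singleton.2 e
  · obtain ⟨b, b1, b2⟩ := hP.right ⟨r, hr⟩
    exact ⟨b, mem_toFinset.1 b1, by simpa [hr] using b2⟩

/-- Pieces that consist of one pair are compared by their shape. -/
theorem atom {u v : S.V} {u' v' : S'.V} (h1 : u = v ↔ u' = v') (h2 : S.G.Adj u v ↔ S'.G.Adj u' v')
    (h3 : S'.c u' = S.c u) (h4 : u ∈ bd S.G {(u, v)} → u' ∈ bd S'.G {(u', v')})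
    (h5 : v ∈ bd S.G {(u, v)} → v' ∈ bd S'.G {(u', v')})
    (h6 : fb S.G {(u, v)} = fb S'.G {(u', v')}) : ULe S {(u, v)} S' {(u', v')} := by
  have hv : ∀ x ∈ VX S.G {(u, v)}, (x = u ∨ x = v) ∧ (u' = v' ∨ S'.G.Adj u' v') := by
    rintro x ⟨_, rfl, k⟩
    exact ⟨k.1, k.2.imp h1.1 h2.1⟩
  refine ⟨fun x => {y | x = u ∧ y = u' ∨ x = v ∧ y = v'}, ⟨?_, fun x hx => ?_, ?_, ?_, ?_⟩,
    fun r hr => ?_, h6⟩
  · rintro x hx y (⟨-, rfl⟩ | ⟨-, rfl⟩)
    exacts [⟨_, rfl, Or.inl rfl, (hv x hx).2⟩, ⟨_, rfl, Or.inr rfl, (hv x hx).2⟩]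
  · rcases (hv x hx).1 with rfl | rfl
    · convert conn_singleton _ u' using 1
      ext y
      exact ⟨fun k => k.elim (·.2) fun k => k.2.trans (h1.1 k.1).symm, fun k => Or.inl ⟨rfl, k⟩⟩
    · convert conn_singleton _ v' using 1
      ext y
      exact ⟨fun k => k.elim (fun k => k.2.trans (h1.1 k.1.symm)) (·.2), fun k => Or.inr ⟨rfl, k⟩⟩
  · intro x _ y _ e
    rw [disjoint_left]
    rintro z (⟨rfl, rfl⟩ | ⟨rfl, rfl⟩) (⟨rfl, k⟩ | ⟨rfl, k⟩)
    exacts [e rfl, e (h1.2 k), e (h1.2 k.symm).symm, e rfl]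
  · rintro x y ⟨e, k | k⟩ <;> obtain ⟨rfl, rfl⟩ := Prod.mk.inj (mem_singleton_iff.1 k)
    · exact ⟨u', Or.inl ⟨rfl, rfl⟩, v', Or.inr ⟨rfl, rfl⟩, h2.1 e, Or.inl rfl⟩
    · exact ⟨v', Or.inr ⟨rfl, rfl⟩, u', Or.inl ⟨rfl, rfl⟩, (h2.1 e.symm).symm, Or.inr rfl⟩
  · intro x k
    obtain ⟨rfl, rfl⟩ := Prod.mk.inj (mem_singleton_iff.1 k)
    exact ⟨u', Or.inl ⟨rfl, rfl⟩, by rw [← h1.1 rfl]; rfl, h3⟩
  · rcases (hv r hr.1).1 with rfl | rfl
    exacts [⟨u', h4 hr, Or.inl ⟨rfl, rfl⟩⟩, ⟨v', h5 hr, Or.inr ⟨rfl, rfl⟩⟩]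

end Pool.Agent.MP_9d78a0_co.pl

end MrgPart3

-- ======== part 4: formerly Pool.Agent.MP_9d78a0_co.pl.Wqo
section MrgPart4

/-! Coloured graphs of bounded width are well-quasi-ordered by the minor relation
(Robertson and Seymour). -/

set_option autoImplicit false

namespace Pool.Agent.MP_9d78a0_co.pl

open Set Relation

variable {Γ : Type}

/-- the coloured minor relation -/
def CG.Le (S S' : CG Γ) : Prop :=
  ∃ B : S.V → Set S'.V, Model S.G S'.G univ B ∧ ∀ v, ∃ u ∈ B v, S'.c u = S.c v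

/-- existence of a linked decomposition of width at most `K` -/
def HasDec (K : ℕ) {V : Type} (G : SimpleGraph V) : Prop := ∃ T, Dec (fb G) K T ∧ Lnk (fb G) T

theorem pigeon {β : Type} [Finite β] {s : Set ℕ} (hs : s.Infinite) (code : ℕ → β) (w : ℕ → ℕ)
    {K : ℕ} (hw : ∀ n, w n ≤ K) : ∃ m ∈ s, ∃ n ∈ s, m < n ∧ code m = code n ∧ w m = w n := by
  obtain ⟨m, hm, n, hn, h1, h2⟩ := hs.exists_lt_map_eq_of_mapsTo (f := fun n => (code n, w n))
    (t := univ ×ˢ Iic K) (fun n _ => ⟨trivial, hw n⟩) (finite_univ.prod (finite_Iic K))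
  exact ⟨m, hm, n, hn, h1, congrArg Prod.fst h2, congrArg Prod.snd h2⟩

theorem chain_roots (S : ℕ → CG Γ) (X : ∀ n, Set ((S n).V × (S n).V))
    (h : ∀ n, ULe (S n) (X n) (S (n + 1)) (X (n + 1))) :
    ∃ ρ : ∀ n, bd (S 0).G (X 0) → (S n).V, (∀ n, range (ρ n) = bd (S n).G (X n)) ∧
      ∀ m n, m < n → RM (S m) (X m) (S n) (X n) (ρ m) (ρ n) := by
  choose σ h1 h2 using fun n (ρ : {ρ : bd (S 0).G (X 0) → (S n).V // range ρ = bd (S n).G (X n)}) =>
    (h n).lift ρ.2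
  let ρ : ∀ n, {ρ : bd (S 0).G (X 0) → (S n).V // range ρ = bd (S n).G (X n)} := fun n =>
    Nat.rec ⟨Subtype.val, Subtype.range_coe⟩ (fun n ρ => ⟨σ n ρ, h1 n ρ⟩) n
  refine ⟨fun n => (ρ n).1, fun n => (ρ n).2, fun m n hmn => ?_⟩
  induction hmn with
  | refl => exact h2 m (ρ m)
  | step _ ih => exact ih.trans (h2 _ (ρ _))

theorem glue_seq [Finite Γ] (S : ℕ → CG Γ) (L R : ∀ n, Set ((S n).V × (S n).V))
    (hd : ∀ n, Disjoint (L n) (R n)) (hL : ∀ n, ULe (S n) (L n) (S (n + 1)) (L (n + 1)))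
    (hR : ∀ n, ULe (S n) (R n) (S (n + 1)) (R (n + 1))) {K : ℕ}
    (hK : ∀ n, fb (S n).G (L n ∪ R n) ≤ K) :
    ∃ m n, m < n ∧ ULe (S m) (L m ∪ R m) (S n) (L n ∪ R n) := by
  obtain ⟨ρ, a1, a2⟩ := chain_roots S L hL
  obtain ⟨τ, b1, b2⟩ := chain_roots S R hR
  obtain ⟨m, -, n, -, h1, h2, h3⟩ := pigeon infinite_univ (fun n => ((fun i j => ρ n i = τ n j),
    (fun i => ρ n i ∈ bd (S n).G (L n ∪ R n)), fun j => τ n j ∈ bd (S n).G (L n ∪ R n))) _ hK
  obtain ⟨c1, c2, c3⟩ := Prod.mk.inj h2 |>.imp id Prod.mk.inj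
  exact ⟨m, n, h1, glue (hd m) (hd n) (a1 m) (b1 m) (a1 n) (b1 n) (a2 m n h1) (b2 m n h1)
    (fun i j => (congrFun (congrFun c1 i) j).to_iff) (fun i => (congrFun c2 i).mp)
    (fun j => (congrFun c3 j).mp) h3⟩

theorem atom_seq [Finite Γ] (S : ℕ → CG Γ) (X : ∀ n, Set ((S n).V × (S n).V)) {s : Set ℕ}
    (hs : s.Infinite) (h : ∀ n ∈ s, ¬ (X n).Nontrivial) {K : ℕ} (hK : ∀ n, fb (S n).G (X n) ≤ K) :
    ∃ m n, m < n ∧ ULe (S m) (X m) (S n) (X n) := by
  have k : ∀ n, ∃ c : Option (Prop × Prop × Γ × Prop × Prop), n ∈ s → X n = ∅ ∧ c = none ∨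
      ∃ u v, X n = {(u, v)} ∧ c = some (u = v, (S n).G.Adj u v, (S n).c u, u ∈ bd (S n).G {(u, v)},
        v ∈ bd (S n).G {(u, v)}) := by
    intro n
    by_cases hn : n ∈ s
    · rcases (not_nontrivial_iff.1 (h n hn)).eq_empty_or_singleton with e | ⟨⟨u, v⟩, e⟩
      exacts [⟨none, fun _ => Or.inl ⟨e, rfl⟩⟩, ⟨_, fun _ => Or.inr ⟨u, v, e, rfl⟩⟩]
    · exact ⟨none, fun c => absurd c hn⟩
  choose c hc using k
  obtain ⟨m, hm, n, hn, h1, h2, h3⟩ := pigeon hs c _ hK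
  refine ⟨m, n, h1, ?_⟩
  rcases hc m hm with ⟨e, d⟩ | ⟨u, v, e, d⟩
  · refine ⟨fun _ => ∅, ?_, ?_, h3⟩ <;> rw [e]
    · refine ⟨?_, ?_, ?_, fun u v k => k.2.elim False.elim False.elim, fun _ k => k.elim⟩ <;>
        exact fun _ ⟨_, k, _⟩ => k.elim
    · exact fun _ ⟨⟨_, k, _⟩, _⟩ => k.elim
  rcases hc n hn with ⟨e', d'⟩ | ⟨u', v', e', d'⟩
  · rw [d, d'] at h2
    exact absurd h2 (by simp)
  rw [d, d'] at h2
  rw [e, e'] at h3 ⊢
  simp only [Option.some.injEq, Prod.mk.injEq, eq_iff_iff] at h2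
  exact atom h2.1 h2.2.1 h2.2.2.1.symm h2.2.2.2.1.1 h2.2.2.2.2.1 h3

/-- The theorem of Robertson and Seymour for graphs of bounded width. -/
theorem wqo [Finite Γ] {K : ℕ} (S : ℕ → CG Γ) (h : ∀ n, HasDec K (S n).G) :
    ∃ m n, m < n ∧ (S m).Le (S n) := by
  choose T hT hl using h
  let α := Σ n, Set ((S n).V × (S n).V)
  let r : α → α → Prop := fun a b => ULe (S a.1) a.2 (S b.1) b.2
  let ch : α → α → Prop := fun b a => ∃ Y : Set ((S a.1).V × (S a.1).V), b = ⟨a.1, Y⟩ ∧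
    Y ∈ T a.1 ∧ a.2 \ Y ∈ T a.1 ∧ Y ⊆ a.2 ∧ Y.Nonempty ∧ (a.2 \ Y).Nonempty
  have : IsPreorder α r := { refl := fun a => ULe.refl _ _, trans := fun _ _ _ => ULe.trans }
  have : IsPreorder (α × α) fun x y => r x.1 y.1 ∧ r x.2 y.2 :=
    { refl := fun a => ⟨ULe.refl _ _, ULe.refl _ _⟩
      trans := fun _ _ _ h h' => ⟨h.1.trans h'.1, h.2.trans h'.2⟩ }
  have key := forest (r := r) (ch := ch) (lab := fun a => fb (S a.1).G a.2)
    (size := fun a => a.2.ncard) (S := {a | a.2 ∈ T a.1}) (K := K) (fun _ _ _ => ULe.trans)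
    (fun a ha => (hT _).wid _ ha) (by rintro _ a - ⟨Y, rfl, k, -⟩; exact k) (by
      rintro _ a ⟨Y, rfl, -, -, k1, -, y, k2⟩
      exact ncard_lt_ncard ((ssubset_iff_of_subset k1).2 ⟨y, k2.1, k2.2⟩)) ?_ ?_
  · obtain ⟨m, n, h1, B, h2, -⟩ := key.exists_lt (f := fun n => ⟨n, univ⟩) fun n => (hT n).top
    have a : ∀ (n) (v : (S n).V), v ∈ VX (S n).G univ := fun n v => ⟨_, trivial, inc_self v⟩
    refine ⟨m, n, h1, B, ⟨fun _ => subset_univ _, fun v => conn_mono (h2.conn v (a _ v))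
      fun _ _ k => k.1, fun u v => h2.disj u (a _ u) v (a _ v), fun u v k => ?_⟩, fun v => ?_⟩
    · obtain ⟨x, hx, y, hy, c⟩ := h2.adj u v ⟨k, Or.inl trivial⟩
      exact ⟨x, hx, y, hy, c.1⟩
    · obtain ⟨u, b1, -, b2⟩ := h2.col v trivial
      exact ⟨u, b1, b2⟩
  · intro k b a ha hd hb hk
    have : ∃ Y : Set ((S a.1).V × (S a.1).V), b = ⟨a.1, Y⟩ ∧ Y ∈ T a.1 ∧ Y ⊆ a.2 ∧
        ∀ s ∈ T a.1, Y ⊆ s → s ⊆ a.2 → k ≤ fb (S a.1).G s := by
      have step : ∀ Y Z s : Set ((S a.1).V × (S a.1).V), Z ∈ T a.1 → Z \ Y ∈ T a.1 → Y ⊆ Z →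
          Y.Nonempty → s ∈ T a.1 → Y ⊆ s → s = Y ∨ Z ⊆ s := by
        intro Y Z s h1 h2 h3 ⟨y, hy⟩ h4 h5
        rcases (hT _).nest h4 h1 (h5 hy) (h3 hy) with d | d
        · rcases (hT _).lam s h4 _ h2 with e | e | e
          · exact absurd hy (e (h5 hy)).2
          · exact Or.inr fun z hz => by
              by_cases f : z ∈ Y
              exacts [h5 f, e ⟨hz, f⟩]
          · exact Or.inl (subset_antisymm (fun z hz => not_not.1 fun f =>
              disjoint_left.1 e hz ⟨d hz, f⟩) h5)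
        · exact Or.inr d
      clear hb
      induction hd using TransGen.head_induction_on with
      | single hd =>
        obtain ⟨⟨Y, rfl, c1, c2, c3, c4, -⟩, c5, c6⟩ := hd
        refine ⟨Y, rfl, c1, c3, fun s d1 d2 d3 => ?_⟩
        rcases step Y _ s ha c2 c3 c4 d1 d2 with rfl | e
        exacts [c5, subset_antisymm d3 e ▸ c6]
      | head hd _ ih =>
        obtain ⟨Z, rfl, b1, b2, b3⟩ := ih
        obtain ⟨⟨Y, rfl, c1, c2, c3, c4, -⟩, c5, -⟩ := hd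
        refine ⟨Y, rfl, c1, c3.trans b2, fun s d1 d2 d3 => ?_⟩
        rcases step Y _ s b1 c2 c3 c4 d1 d2 with rfl | e
        exacts [c5, b3 s d1 e d3]
    obtain ⟨Y, rfl, c1, c2, c3⟩ := this
    refine link c2 (fun U d1 d2 => ?_) (hb.trans hk.symm)
    obtain ⟨s, e1, e2, e3, e4⟩ := hl _ Y c1 _ ha U d1 d2
    exact (le_of_eq hb).trans ((c3 s e1 e2 e3).trans e4)
  · intro f hf hp
    by_cases hs : {n | ¬ (f n).2.Nontrivial}.Infinite
    · exact atom_seq (fun n => S (f n).1) (fun n => (f n).2) hs (fun _ k => k)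
        fun n => (hT _).wid _ (hf n)
    obtain ⟨N, hN⟩ := (not_infinite.1 hs).bddAbove
    choose l a1 a2 a3 a4 a5 using fun n => (hT _).split _ (hf (N + 1 + n))
      (not_not.1 fun c => absurd (hN c) (by omega))
    obtain ⟨g, hg⟩ := (hp.prod hp).exists_monotone_subseq
      (f := fun n => (⟨_, l n⟩, ⟨_, (f (N + 1 + n)).2 \ l n⟩)) fun n =>
        ⟨⟨N + 1 + n, _, rfl, a1 n, a5 n, a2 n, a3 n, a4 n⟩, N + 1 + n, _, rfl, a5 n,
          by rw [sdiff_sdiff_cancel_left (a2 n)]; exact a1 n, sdiff_subset, a4 n,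
          by rw [sdiff_sdiff_cancel_left (a2 n)]; exact a3 n⟩
    obtain ⟨m, n, h1, h2⟩ := glue_seq (fun n => S (f (N + 1 + g n)).1) (fun n => l (g n))
      (fun n => (f (N + 1 + g n)).2 \ l (g n)) (fun _ => disjoint_sdiff_right)
      (fun n => (hg n (n + 1) (by omega)).1) (fun n => (hg n (n + 1) (by omega)).2) (K := K)
      fun n => by rw [union_sdiff_cancel (a2 _)]; exact (hT _).wid _ (hf _)
    rw [union_sdiff_cancel (a2 _), union_sdiff_cancel (a2 _)] at h2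
    exact ⟨_, _, Nat.add_lt_add_left (g.strictMono h1) _, h2⟩

end Pool.Agent.MP_9d78a0_co.pl

end MrgPart4

-- ======== part 5: formerly Pool.Agent.MP_9d78a0_co.pl.Types
section MrgPart5

/-! The outside of a region with small boundary can be replaced by a graph of bounded size. -/

set_option autoImplicit false

namespace Pool.Agent.MP_9d78a0_co.pl

open Set

variable {Γ : Type} {F : Family} {K : ℕ}

theorem CG.Le.refl (S : CG Γ) : S.Le S :=
  ⟨fun v => {v}, ⟨fun _ => subset_univ _, conn_singleton _, fun _ _ e => disjoint_singleton.2 e,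
    fun u v e => ⟨u, rfl, v, rfl, e⟩⟩, fun v => ⟨v, rfl, rfl⟩⟩

theorem CG.Le.trans {S S' S'' : CG Γ} (h : S.Le S') (h' : S'.Le S'') : S.Le S'' := by
  obtain ⟨B, h1, h2⟩ := h
  obtain ⟨C, h3, h4⟩ := h'
  refine ⟨_, h1.comp C (fun _ _ => subset_univ _) (fun v _ => h3.2.1 v)
    (fun v _ v' _ => h3.2.2.1 v v') (fun v _ v' _ => h3.2.2.2 v v'), fun v => ?_⟩
  obtain ⟨u, a1, a2⟩ := h2 v
  obtain ⟨w, b1, b2⟩ := h4 u
  exact ⟨w, mem_biUnion a1 b1, b2.trans a2⟩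

instance : IsPreorder (CG Γ) CG.Le where
  refl := CG.Le.refl
  trans := fun _ _ _ => CG.Le.trans

/-- all free graphs have decompositions of width at most `K` -/
def Narrow (F : Family) (K : ℕ) : Prop :=
  ∀ (V : Type) [Finite V] (G : SimpleGraph V), Free F G → HasDec K G

theorem pwo [Finite Γ] (h : Narrow F K) :
    {S : CG Γ | Free F S.G}.PartiallyWellOrderedOn CG.Le :=
  partiallyWellOrderedOn_iff_exists_lt.2 fun S hS => wqo S fun n => h _ _ (hS n)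

theorem finite_types {α : Type 1} {r : α → α → Prop} [IsPreorder α r] {A : Set α}
    (hA : A.PartiallyWellOrderedOn r) (P : α → α → Prop)
    (mono : ∀ a a' b b', r a a' → r b b' → P a' b' → P a b) :
    ((fun b => {a | a ∈ A ∧ P a b}) '' A).Finite := by
  by_contra hi
  let t := Set.Infinite.natEmbedding _ hi
  choose b hb e using fun n => (t n).2
  obtain ⟨g, hg⟩ := hA.exists_monotone_subseq hb
  have k : ∀ n, ∃ a, (a ∈ A ∧ P a (b (g n))) ∧ ¬ (a ∈ A ∧ P a (b (g (n + 1)))) := by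
    intro n
    by_contra hc
    push Not at hc
    have : t (g n) = t (g (n + 1)) := by
      refine Subtype.ext ((e _).symm.trans (Eq.trans ?_ (e _)))
      exact subset_antisymm hc fun a ha => ⟨ha.1, mono _ _ _ _ (refl a) (hg _ _ (by omega)) ha.2⟩
    exact absurd (g.injective (t.injective this)) (by omega)
  choose a h1 h2 using k
  obtain ⟨m, n, hmn, h⟩ := hA.exists_lt fun n => (h1 n).1
  exact h2 m ⟨(h1 m).1, mono _ _ _ _ h (hg _ _ hmn) (h1 n).2⟩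

theorem exists_rep {α β : Type 1} (τ : α → β) (sz : α → ℕ) {A : Set α} (h : (τ '' A).Finite) :
    ∃ M, ∀ a ∈ A, ∃ a' ∈ A, τ a' = τ a ∧ sz a' ≤ M := by
  have := h.to_subtype
  choose s h1 h2 using fun t : τ '' A => t.2
  obtain ⟨M, hM⟩ := (finite_range fun t => sz (s t)).bddAbove
  exact ⟨M, fun a ha => ⟨s ⟨_, a, ha, rfl⟩, h1 _, h2 _, hM ⟨_, rfl⟩⟩⟩

variable {ι : Type}

/-- the edges of the glued graph that do not come from marks -/
def base (S S' : CG (Set ι × Prop)) : S.V ⊕ S'.V → S.V ⊕ S'.V → Prop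
  | .inl u, .inl v => S.G.Adj u v
  | .inl u, .inr v => ((S.c u).1 ∩ (S'.c v).1).Nonempty
  | .inr u, .inl v => ((S.c v).1 ∩ (S'.c u).1).Nonempty
  | .inr u, .inr v => S'.G.Adj u v

/-- marked vertices -/
def mkd (S S' : CG (Set ι × Prop)) : S.V ⊕ S'.V → Prop :=
  Sum.elim (fun u => (S.c u).2) fun v => (S'.c v).2

/-- two graphs glued according to the colours -/
def gl (S S' : CG (Set ι × Prop)) : SimpleGraph (S.V ⊕ S'.V) where
  Adj a b := base S S' a b ∨ a ≠ b ∧ mkd S S' a ∧ mkd S S' b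
  symm := ⟨by
    rintro a b (h | h)
    · left
      cases a <;> cases b
      exacts [h.symm, h, h, h.symm]
    · exact Or.inr ⟨h.1.symm, h.2.2, h.2.1⟩⟩
  loopless := ⟨by
    rintro a (h | h)
    · cases a <;> exact h.ne rfl
    · exact h.1 rfl⟩

theorem conn_image {V W : Type} {G : SimpleGraph V} {G' : SimpleGraph W} {S : Set V} (h : Conn G S)
    (f : V → W) (hf : ∀ a b, G.Adj a b → G'.Adj (f a) (f b)) : Conn G' (f '' S) := by
  refine ⟨h.1.image f, ?_⟩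
  rintro _ ⟨u, hu, rfl⟩ _ ⟨v, hv, rfl⟩
  exact Link.map f (fun a ha b hb e =>
    Link.single (mem_image_of_mem f ha) (mem_image_of_mem f hb) (hf a b e)) (h.2 u hu v hv)

theorem gl_minor {S S' T T' : CG (Set ι × Prop)} (h : S.Le T) (h' : S'.Le T') :
    IsMinor (gl S S') (gl T T') := by
  obtain ⟨B, ⟨-, a1, a2, a3⟩, a4⟩ := h
  obtain ⟨C, ⟨-, b1, b2, b3⟩, b4⟩ := h'
  choose x x1 x2 using a4
  choose y y1 y2 using b4
  let M : S.V ⊕ S'.V → Set (T.V ⊕ T'.V) :=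
    Sum.elim (fun u => Sum.inl '' B u) fun v => Sum.inr '' C v
  have hd : ∀ a b, a ≠ b → Disjoint (M a) (M b) := by
    rintro (u | u) (v | v) e
    exacts [(disjoint_image_iff Sum.inl_injective).2 (a2 u v fun c => e (c ▸ rfl)),
      disjoint_image_inl_image_inr, disjoint_image_inl_image_inr.symm,
      (disjoint_image_iff Sum.inr_injective).2 (b2 u v fun c => e (c ▸ rfl))]
  have hm : ∀ a, Sum.map x y a ∈ M a := by
    rintro (u | u)
    exacts [⟨_, x1 u, rfl⟩, ⟨_, y1 u, rfl⟩]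
  have hk : ∀ a, mkd S S' a → mkd T T' (Sum.map x y a) := by
    rintro (u | u) e
    exacts [(congrArg Prod.snd (x2 u)).mpr e, (congrArg Prod.snd (y2 u)).mpr e]
  refine (isMinor_iff _ _).2 ⟨M, fun _ => subset_univ _, ?_, hd, ?_⟩
  · rintro (u | u)
    exacts [conn_image (a1 u) _ fun _ _ e => Or.inl e, conn_image (b1 u) _ fun _ _ e => Or.inl e]
  · rintro a b (e | e)
    · rcases a with u | u <;> rcases b with v | v
      · obtain ⟨p, hp, q, hq, c⟩ := a3 u v e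
        exact ⟨_, ⟨p, hp, rfl⟩, _, ⟨q, hq, rfl⟩, Or.inl c⟩
      · refine ⟨_, hm _, _, hm _, Or.inl (?_ : ((T.c (x u)).1 ∩ (T'.c (y v)).1).Nonempty)⟩
        rwa [x2, y2]
      · refine ⟨_, hm _, _, hm _, Or.inl (?_ : ((T.c (x v)).1 ∩ (T'.c (y u)).1).Nonempty)⟩
        rwa [x2, y2]
      · obtain ⟨p, hp, q, hq, c⟩ := b3 u v e
        exact ⟨_, ⟨p, hp, rfl⟩, _, ⟨q, hq, rfl⟩, Or.inl c⟩
    · exact ⟨_, hm a, _, hm b, Or.inr ⟨fun c => disjoint_left.1 (hd a b e.1) (hm a) (c ▸ hm b),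
        hk a e.2.1, hk b e.2.2⟩⟩

/-- new marks -/
def CG.mark (S : CG (Set ι × Prop)) (m : S.V → Prop) : CG (Set ι × Prop) :=
  ⟨S.V, S.fin, S.G, fun v => ((S.c v).1, m v)⟩

theorem exists_roles {V : Type} [Finite V] {Y : Set V} {b : ℕ} (h : Y.ncard ≤ b) :
    ∃ ρ : V → Set (Fin b), (∀ i y y', i ∈ ρ y → i ∈ ρ y' → y = y') ∧
      ∀ y ∈ Y, (ρ y).Nonempty := by
  have := Fintype.ofFinite Y
  obtain ⟨e⟩ : Nonempty (Y ↪ Fin b) := Function.Embedding.nonempty_of_card_le (by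
    rwa [Fintype.card_fin, ← Nat.card_eq_fintype_card, Nat.card_coe_set_eq])
  refine ⟨fun y => {i | ∃ h : y ∈ Y, e ⟨y, h⟩ = i}, ?_, fun y hy => ⟨_, hy, rfl⟩⟩
  rintro i y y' ⟨h1, h2⟩ ⟨h3, h4⟩
  exact congrArg Subtype.val (e.injective (h2.trans h4.symm))

/-- The replacement lemma. -/
theorem replace (hK : Narrow F K) (b : ℕ) : ∃ β : ℕ, ∀ (V : Type) [Finite V] (G : SimpleGraph V)
    (A Y : Set V), EdgeMax F G → Y.ncard ≤ b → (∀ u ∈ A, u ∉ Y → ∀ v, G.Adj u v → v ∈ A) →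
    ∃ n, A.ncard ≤ n ∧ n ≤ A.ncard + β ∧ 2 * Mminus F n ≤ dd (G.induce A) + (b + β) ^ 2 := by
  classical
  let T0 : CG (Set (Fin b) × Prop) → Set (CG (Set (Fin b) × Prop)) := fun S =>
    {A | A ∈ {S : CG (Set (Fin b) × Prop) | Free F S.G} ∧ Free F (gl A S)}
  have hfin : (T0 '' {S | Free F S.G}).Finite := finite_types (pwo hK) (fun A S => Free F (gl A S))
    fun _ _ _ _ h h' k => k.of_minor (gl_minor h h')
  obtain ⟨β, hβ⟩ := exists_rep (fun S => (T0 S, range fun v => T0 (S.mark (· = v))))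
    (fun S => Nat.card S.V) (A := {S | Free F S.G ∧ ∀ v, ¬ (S.c v).2})
    ((hfin.prod hfin.finite_subsets).subset (by
      rintro _ ⟨S, hS, rfl⟩
      exact ⟨⟨S, hS.1, rfl⟩, range_subset_iff.2 fun v => ⟨S.mark (· = v), hS.1, rfl⟩⟩))
  refine ⟨β, fun V _ G A Y hG hY hA => ?_⟩
  obtain ⟨ρ, r1, r2⟩ := exists_roles hY
  let SA : CG (Set (Fin b) × Prop) := ⟨A, inferInstance, G.induce A, fun v => (ρ v, False)⟩
  let SO : CG (Set (Fin b) × Prop) := ⟨(Aᶜ : Set V), inferInstance, G.induce Aᶜ,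
    fun v => ({i | ∃ y, G.Adj v y ∧ i ∈ ρ y}, False)⟩
  have fA : Free F SA.G := hG.1.of_inj Subtype.val Subtype.val_injective fun _ _ k => k
  have fO : Free F SO.G := hG.1.of_inj Subtype.val Subtype.val_injective fun _ _ k => k
  let e := Equiv.Set.sumCompl A
  have hb : ∀ a a', base SA SO a a' ↔ G.Adj (e a) (e a') := by
    have k : ∀ (u : A) (v : (Aᶜ : Set V)), ((SA.c u).1 ∩ (SO.c v).1).Nonempty ↔ G.Adj u v := by
      intro u v
      refine ⟨fun ⟨i, c, y, c1, c2⟩ => r1 i y u c2 c ▸ c1.symm, fun c => ?_⟩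
      obtain ⟨i, hi⟩ := r2 u (not_not.1 fun d => v.2 (hA u u.2 d v c))
      exact ⟨i, hi, u, c.symm, hi⟩
    rintro (u | u) (v | v)
    exacts [Iff.rfl, k u v, (k v u).trans (G.adj_comm _ _), Iff.rfl]
  have F1 : Free F (gl SA SO) := hG.1.of_inj e e.injective (by
    rintro a a' (c | c)
    · exact (hb a a').1 c
    · cases a <;> exact c.2.1.elim)
  have F2 : ∀ m m' a a', a ≠ a' → mkd (SA.mark m) (SO.mark m') a → mkd (SA.mark m) (SO.mark m') a' →
      ¬ G.Adj (e a) (e a') → ¬ Free F (gl (SA.mark m) (SO.mark m')) := by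
    intro m m' a a' c1 c2 c3 c4 c5
    refine hG.2 _ _ (e.injective.ne c1) c4 (c5.of_inj e.symm e.symm.injective fun u v d => ?_)
    rcases sup_edge_adj d with d | ⟨rfl, rfl⟩ | ⟨rfl, rfl⟩
    · have := (hb (e.symm u) (e.symm v)).2 (by simpa using d)
      left
      generalize e.symm u = p, e.symm v = q at this
      cases p <;> cases q <;> exact this
    · rw [e.symm_apply_apply, e.symm_apply_apply]
      exact Or.inr ⟨c1, c2, c3⟩
    · rw [e.symm_apply_apply, e.symm_apply_apply]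
      exact Or.inr ⟨c1.symm, c3, c2⟩
  obtain ⟨S', ⟨s1, s2⟩, s3, s4⟩ := hβ SO ⟨fO, fun _ k => k⟩
  obtain ⟨s5, s6⟩ := Prod.mk.inj s3
  obtain ⟨G', g1, g2⟩ := exists_edgeMax (s5.ge ⟨fA, F1⟩ : SA ∈ T0 S').2
  have C1 : ∀ u v : A, G'.Adj (.inl u) (.inl v) → G.Adj u v := by
    intro u v c
    by_contra d
    refine F2 (fun w => w = u ∨ w = v) (fun _ => False) (.inl u) (.inl v)
      (fun k => c.ne (Sum.inl_injective k ▸ rfl)) (Or.inl rfl) (Or.inr rfl) d
      (s5.le (⟨fA, g2.1.mono ?_⟩ : SA.mark (fun w => w = u ∨ w = v) ∈ T0 S')).2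
    rintro p q (k | k)
    · exact g1 (Or.inl (by cases p <;> cases q <;> exact k))
    · rcases p with p | p
      · rcases q with q | q
        · obtain ⟨k1, rfl | rfl, rfl | rfl⟩ := k
          exacts [absurd rfl k1, c, c.symm, absurd rfl k1]
        · exact absurd k.2.2 (s2 q)
      · exact absurd k.2.1 (s2 p)
  have C2 : ∀ (u : A) v, G'.Adj (.inl u) (.inr v) → u.1 ∈ Y := by
    intro u v c
    by_contra d
    obtain ⟨w, hw⟩ := s6.le ⟨v, rfl⟩
    refine F2 (· = u) (· = w) (.inl u) (.inr w) Sum.inl_ne_inr rfl rfl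
      (fun k => w.2 (hA u u.2 d w k))
      (hw.ge (⟨fA, g2.1.mono ?_⟩ : SA.mark (· = u) ∈ T0 (S'.mark (· = v)))).2
    rintro p q (k | k)
    · exact g1 (Or.inl (by cases p <;> cases q <;> exact k))
    · rcases p with p | p <;> rcases q with q | q <;> obtain ⟨k1, rfl, rfl⟩ := k
      exacts [absurd rfl k1, c, c.symm, absurd rfl k1]
  have c1 : Nat.card (SA.V ⊕ S'.V) = A.ncard + Nat.card S'.V := by
    rw [Nat.card_sum]
    rfl
  refine ⟨_, by rw [c1]; omega, by rw [c1]; omega, (two_Mminus_le g2).trans ?_⟩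
  let W : Set (SA.V ⊕ S'.V) := Sum.inl '' (Subtype.val ⁻¹' Y) ∪ range Sum.inr
  have w1 : W.ncard ≤ b + β := by
    refine (ncard_union_le _ _).trans (add_le_add ((ncard_image_le).trans (le_trans ?_ hY)) ?_)
    · exact ncard_le_ncard_of_injOn Subtype.val (fun _ k => k) Subtype.val_injective.injOn
    · rw [← image_univ]
      exact (ncard_image_le (toFinite _)).trans (by rwa [ncard_univ])
  have w2 : {p : (SA.V ⊕ S'.V) × (SA.V ⊕ S'.V) | G'.Adj p.1 p.2} ⊆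
      Prod.map Sum.inl Sum.inl '' {p : A × A | (G.induce A).Adj p.1 p.2} ∪ W ×ˢ W := by
    rintro ⟨u | u, v | v⟩ k
    exacts [Or.inl ⟨(u, v), C1 u v k, rfl⟩, Or.inr ⟨Or.inl ⟨u, C2 u v k, rfl⟩, Or.inr ⟨v, rfl⟩⟩,
      Or.inr ⟨Or.inr ⟨u, rfl⟩, Or.inl ⟨v, C2 v u k.symm, rfl⟩⟩,
      Or.inr ⟨Or.inr ⟨u, rfl⟩, Or.inr ⟨v, rfl⟩⟩]
  refine (ncard_le_ncard w2).trans ((ncard_union_le _ _).trans (add_le_add ncard_image_le ?_))
  rw [ncard_prod, sq]
  exact Nat.mul_le_mul w1 w1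

end Pool.Agent.MP_9d78a0_co.pl

end MrgPart5

-- ======== part 6: formerly Pool.Agent.MP_9d78a0_co.pl.Region
section MrgPart6

/-! Regions of prescribed size, with bounded boundary and with typical density. -/

set_option autoImplicit false

namespace Pool.Agent.MP_9d78a0_co.pl

open Set

variable {ε : Type} {f : Set ε → ℕ} {K : ℕ} {T : Set (Set ε)}

/-- a partition of `X` into at most `m` admissible sets -/
def Parts (ok : Set ε → Prop) (X : Set ε) (m : ℕ) : Prop :=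
  ∃ P : Finset (Set ε), (P : Set (Set ε)).PairwiseDisjoint id ∧ ⋃₀ (P : Set (Set ε)) = X ∧
    (∀ p ∈ P, ok p) ∧ P.card ≤ m

theorem Parts.one {ok : Set ε → Prop} {X : Set ε} (h : ok X) : Parts ok X 1 :=
  ⟨{X}, by simp, by simp, by simpa using h, by simp⟩

theorem Parts.union {ok : Set ε → Prop} {X Y : Set ε} {m n : ℕ} (h : Parts ok X m)
    (h' : Parts ok Y n) (hd : Disjoint X Y) : Parts ok (X ∪ Y) (m + n) := by
  classical
  obtain ⟨P, a1, rfl, a3, a4⟩ := h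
  obtain ⟨Q, b1, rfl, b3, b4⟩ := h'
  refine ⟨P ∪ Q, ?_, by rw [Finset.coe_union, sUnion_union], fun p hp => ?_,
    (Finset.card_union_le _ _).trans (add_le_add a4 b4)⟩
  · rw [Finset.coe_union]
    exact a1.union b1 fun p hp q hq _ => hd.mono (subset_sUnion_of_mem hp) (subset_sUnion_of_mem hq)
  · exact (Finset.mem_union.1 hp).elim (a3 p) (b3 p)

theorem Parts.add {ok : Set ε → Prop} {X Y : Set ε} {m : ℕ} (h : Parts ok Y m) (hY : Y ⊆ X)
    (h' : ok (X \ Y)) : Parts ok X (m + 1) :=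
  union_sdiff_cancel hY ▸ h.union (Parts.one h') disjoint_sdiff_right

theorem w_add [Finite ε] (D : Set ε) {X Y : Set ε} (h : Y ⊆ X) :
    (X ∩ D).ncard = (Y ∩ D).ncard + ((X \ Y) ∩ D).ncard := by
  rw [← ncard_union_eq (disjoint_sdiff_right.mono inter_subset_left inter_subset_left),
    ← union_inter_distrib_right, union_sdiff_cancel h]

theorem exists_parts [Finite ε] (hf : Subm f) (h : Dec f K T) (D : Set ε) {L : ℕ} (hL : 1 ≤ L)
    (hn : L < D.ncard) :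
    ∃ m, Parts (fun p => f p ≤ 2 * K ∧ (p ∩ D).ncard ≤ 2 * L) univ m ∧ m * L ≤ 3 * D.ncard := by
  have key : ∀ X ∈ T, L < (X ∩ D).ncard → ∃ Y ⊆ X, f Y ≤ K ∧ ((X \ Y) ∩ D).ncard ≤ L ∧
      ∃ m, Parts (fun p => f p ≤ 2 * K ∧ (p ∩ D).ncard ≤ 2 * L) Y m ∧
        (m + 2) * L ≤ 3 * (Y ∩ D).ncard := by
    intro X
    induction X using (wellFounded_lt (α := Set ε)).induction with
    | _ X ih =>
    intro hX hw
    have hK := h.wid X hX
    have e0 : ((X \ X) ∩ D).ncard ≤ L := by simp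
    have one : ∀ A ∈ T, A ⊂ X → L < (A ∩ D).ncard → ((X \ A) ∩ D).ncard ≤ L → ∃ Y ⊆ X, f Y ≤ K ∧
        ((X \ Y) ∩ D).ncard ≤ L ∧ ∃ m, Parts (fun p => f p ≤ 2 * K ∧ (p ∩ D).ncard ≤ 2 * L) Y m ∧
          (m + 2) * L ≤ 3 * (Y ∩ D).ncard := by
      intro A hA hAX h1 h2
      obtain ⟨Y, a1, a2, a3, m, a4, a5⟩ := ih A hAX hA h1
      have b1 := a1.trans hAX.subset
      rcases le_or_gt ((X \ Y) ∩ D).ncard L with c | c
      · exact ⟨Y, b1, a2, c, m, a4, a5⟩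
      · have b2 := w_add D a1
        have b3 := w_add D b1
        have b4 := w_add D hAX.subset
        have b5 := hf.pos X Y
        refine ⟨X, subset_rfl, hK, e0, m + 1, a4.add b1 ⟨by omega, by omega⟩, ?_⟩
        rw [add_right_comm, add_one_mul]
        omega
    obtain ⟨A, hA, h1, ⟨x, h2⟩, ⟨y, h3⟩, hB⟩ := h.split X hX
      ((one_lt_ncard_iff_nontrivial.1 (by omega : 1 < (X ∩ D).ncard)).mono inter_subset_left)
    have s1 : A ⊂ X := (ssubset_iff_of_subset h1).2 ⟨y, h3.1, h3.2⟩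
    have s2 : X \ A ⊂ X := (ssubset_iff_of_subset sdiff_subset).2 ⟨x, h1 h2, fun k => k.2 h2⟩
    have e1 := w_add D h1
    rcases le_or_gt (A ∩ D).ncard L with c | c <;> rcases le_or_gt ((X \ A) ∩ D).ncard L with d | d
    · exact ⟨X, subset_rfl, hK, e0, 1, Parts.one ⟨by omega, by omega⟩, by omega⟩
    · exact one _ hB s2 d (by rwa [sdiff_sdiff_cancel_left h1])
    · exact one _ hA s1 c d
    · obtain ⟨Y, a1, a2, a3, m, a4, a5⟩ := ih A s1 hA c
      obtain ⟨Z, b1, b2, b3, n, b4, b5⟩ := ih _ s2 hB d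
      have c1 := w_add D a1
      have c2 := w_add D b1
      have c3 := hf.pos A Y
      have c4 := hf.pos (X \ A) Z
      have c5 := h.wid _ hA
      have c6 := h.wid _ hB
      refine ⟨X, subset_rfl, hK, e0, m + 1 + (n + 1), union_sdiff_cancel h1 ▸
        (a4.add a1 ⟨by omega, by omega⟩).union (b4.add b1 ⟨by omega, by omega⟩)
          disjoint_sdiff_right, ?_⟩
      rw [show m + 1 + (n + 1) + 2 = m + 2 + (n + 2) by omega, add_mul]
      omega
  obtain ⟨Y, a1, a2, a3, m, a4, a5⟩ := key univ h.top (by rwa [univ_inter])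
  have b1 := hf.pos univ Y
  have b2 := h.wid _ h.top
  have b3 := ncard_le_ncard (inter_subset_right (s := Y) (t := D))
  refine ⟨m + 1, a4.add a1 ⟨by omega, by omega⟩, ?_⟩
  rw [add_mul] at a5 ⊢
  omega

theorem sum_parts [Finite ε] (D : Set ε) (P : Finset (Set ε))
    (h : (P : Set (Set ε)).PairwiseDisjoint id) :
    ((⋃₀ (P : Set (Set ε))) ∩ D).ncard = ∑ p ∈ P, (p ∩ D).ncard := by
  classical
  induction P using Finset.induction_on with
  | empty => simp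
  | insert p P hp ih =>
    rw [Finset.coe_insert] at h
    rw [Finset.sum_insert hp, ← ih (h.subset (subset_insert _ _)), Finset.coe_insert, sUnion_insert,
      union_inter_distrib_right, ncard_union_eq]
    refine Disjoint.mono inter_subset_left inter_subset_left (disjoint_sUnion_right.2 fun q hq => ?_)
    exact h (mem_insert _ _) (mem_insert_of_mem _ hq) fun e => hp (e ▸ hq)

theorem f_parts (hf : Subm f) (P : Finset (Set ε)) {M : ℕ} (h : ∀ p ∈ P, f p ≤ M) :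
    f (⋃₀ (P : Set (Set ε))) ≤ P.card * M := by
  classical
  induction P using Finset.induction_on with
  | empty => simp [hf.emp]
  | insert p P hp ih =>
    have a1 := ih fun q hq => h q (Finset.mem_insert_of_mem hq)
    have a2 := h p (Finset.mem_insert_self _ _)
    have a3 := hf.sub p (⋃₀ (P : Set (Set ε)))
    rw [Finset.coe_insert, sUnion_insert, Finset.card_insert_of_notMem hp, add_one_mul]
    omega

theorem exists_fill {ι : Type} (w : ι → ℕ) (Q : Finset ι) {M N : ℕ} (h : ∀ p ∈ Q, w p ≤ M)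
    (hN : N ≤ ∑ p ∈ Q, w p) : ∃ R ⊆ Q, N ≤ ∑ p ∈ R, w p + M ∧ ∑ p ∈ R, w p ≤ N := by
  classical
  induction Q using Finset.induction_on with
  | empty => exact ⟨∅, subset_rfl, by simp at hN; simp [hN], by simp⟩
  | insert p Q hp ih =>
    rw [Finset.sum_insert hp] at hN
    have a := h p (Finset.mem_insert_self _ _)
    rcases le_total N (∑ p ∈ Q, w p) with c | c
    · obtain ⟨R, b1, b2⟩ := ih (fun q hq => h q (Finset.mem_insert_of_mem hq)) c
      exact ⟨R, b1.trans (Finset.subset_insert _ _), b2⟩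
    · exact ⟨Q, Finset.subset_insert _ _, by omega, c⟩

/-- A region of size about `N` with bounded boundary on which an additive function with
nonpositive total is small. -/
theorem region_abs (K : ℕ) {c η δ : ℝ} (hc : 0 ≤ c) (hη : 0 < η) (hδ : 0 < δ) :
    ∃ b N0 : ℕ, ∀ N ≥ N0, ∃ n0 : ℕ, ∀ (ε : Type) [Finite ε] (f : Set ε → ℕ) (T : Set (Set ε))
      (D E : Set ε) (a a' : ℝ), Subm f → Dec f K T →
      (∀ X, -(c * ((X ∩ D).ncard + f X)) ≤ a * (X ∩ E).ncard + a' * (X ∩ D).ncard) →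
      a * E.ncard + a' * D.ncard ≤ 0 → n0 ≤ D.ncard →
      ∃ R, f R ≤ b ∧ (1 - δ) * N ≤ (R ∩ D).ncard ∧ (R ∩ D).ncard ≤ N ∧
        a * (R ∩ E).ncard + a' * (R ∩ D).ncard ≤ η * (R ∩ D).ncard := by
  classical
  refine ⟨⌈36 * (η + c) / (η * δ)⌉₊ * (2 * K), ⌈4 / δ + 72 * c * K / (η * δ)⌉₊, fun N hN =>
    ⟨⌊δ * N / 2⌋₊ + 1 + ⌈3 * (η + c) * N / η⌉₊, ?_⟩⟩
  intro ε _ f T D E a a' hf h hlow htot hn
  have n1 : 4 * η + 72 * c * K ≤ N * (η * δ) := by
    have := Nat.ceil_le.1 hN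
    rw [← div_le_iff₀ (by positivity)]
    convert this using 1
    field_simp
  have k0 : 0 ≤ c * K := by positivity
  have n2 : 4 ≤ δ * N := le_of_mul_le_mul_left (by linarith) hη
  set L := ⌊δ * N / 2⌋₊
  have l1 : (L : ℝ) ≤ δ * N / 2 := Nat.floor_le (by positivity)
  have l2 : δ * N / 2 < L + 1 := Nat.lt_floor_add_one _
  have l3 : δ * N / 4 ≤ L := by linarith
  have l4 : 1 ≤ L := by exact_mod_cast (by linarith : (1 : ℝ) ≤ L)
  have l5 : 18 * c * K ≤ η * L := by linarith [mul_le_mul_of_nonneg_left l3 hη.le]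
  have n3 : 3 * (η + c) * N ≤ D.ncard * η := by
    rw [← div_le_iff₀ hη]
    exact Nat.ceil_le.1 (by omega)
  obtain ⟨m, ⟨P, p1, p2, p3, p4⟩, p5⟩ := exists_parts hf h D l4 (by omega)
  have sD := sum_parts D P p1
  have sE := sum_parts E P p1
  rw [p2, univ_inter] at sD sE
  let good : Set ε → Prop := fun p => a * (p ∩ E).ncard + a' * (p ∩ D).ncard ≤ η * (p ∩ D).ncard ∧
    η * L ≤ 9 * (η + c) * (p ∩ D).ncard
  have g1 : ∀ p ∈ P, η * (p ∩ D).ncard - 2 / 9 * η * L -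
      (η + c) * (if good p then ((p ∩ D).ncard : ℝ) else 0) ≤
        a * (p ∩ E).ncard + a' * (p ∩ D).ncard := by
    intro p hp
    have a1 := hlow p
    have a2 : (f p : ℝ) ≤ 2 * K := by exact_mod_cast (p3 p hp).1
    have a3 : c * f p ≤ c * (2 * K) := by gcongr
    have a4 : 0 ≤ η * L := by positivity
    split_ifs with d
    · linarith
    · rcases not_and_or.1 d with e | e <;> linarith [not_le.1 e]
  have g2 := Finset.sum_le_sum g1
  rw [Finset.sum_sub_distrib, Finset.sum_sub_distrib, Finset.sum_add_distrib, Finset.sum_const,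
    nsmul_eq_mul, ← Finset.mul_sum, ← Finset.mul_sum, ← Finset.mul_sum, ← Finset.mul_sum,
    ← Finset.sum_filter, ← Nat.cast_sum, ← Nat.cast_sum, ← Nat.cast_sum, ← sD, ← sE] at g2
  have g3 : (P.card : ℝ) * L ≤ 3 * D.ncard := by
    exact_mod_cast (Nat.mul_le_mul_right L p4).trans p5
  have g4 : N ≤ ∑ p ∈ P.filter good, (p ∩ D).ncard := by
    have : (η + c) * N ≤ (η + c) * (∑ p ∈ P.filter good, (p ∩ D).ncard : ℕ) := by
      linarith [mul_le_mul_of_nonneg_left g3 hη.le]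
    exact_mod_cast le_of_mul_le_mul_left this (by positivity)
  obtain ⟨Q, q1, q2, q3⟩ := exists_fill _ _ (fun p hp => (p3 p (Finset.mem_filter.1 hp).1).2) g4
  have q4 : Q ⊆ P := q1.trans (Finset.filter_subset _ _)
  have q5 : ∀ p ∈ Q, good p := fun p hp => (Finset.mem_filter.1 (q1 hp)).2
  have tD := sum_parts D Q (p1.subset (Finset.coe_subset.2 q4))
  have tE := sum_parts E Q (p1.subset (Finset.coe_subset.2 q4))
  refine ⟨⋃₀ (Q : Set (Set ε)), (f_parts hf Q fun p hp => (p3 p (q4 hp)).1).trans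
    (Nat.mul_le_mul_right _ ?_), ?_, tD ▸ q3, ?_⟩
  · have a1 := Finset.sum_le_sum fun p hp => (q5 p hp).2
    rw [Finset.sum_const, nsmul_eq_mul, ← Finset.mul_sum, ← Nat.cast_sum] at a1
    have a2 : ((∑ p ∈ Q, (p ∩ D).ncard : ℕ) : ℝ) ≤ N := by exact_mod_cast q3
    have a3 : 9 * (η + c) * (∑ p ∈ Q, (p ∩ D).ncard : ℕ) ≤ 9 * (η + c) * N := by gcongr
    have a4 : (Q.card : ℝ) * (η * (δ * N / 4)) ≤ Q.card * (η * L) := by gcongr
    have a5 : (0 : ℝ) < N := pos_of_mul_pos_left (by linarith) hδ.le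
    have a6 : (Q.card : ℝ) * (η * δ) ≤ 36 * (η + c) := le_of_mul_le_mul_right (by linarith) a5
    exact_mod_cast ((le_div_iff₀ (by positivity)).2 a6).trans (Nat.le_ceil _)
  · have : (N : ℝ) ≤ (∑ p ∈ Q, (p ∩ D).ncard : ℕ) + 2 * L := by exact_mod_cast q2
    rw [tD]
    linarith
  · rw [tD, tE]
    push_cast
    rw [Finset.mul_sum, Finset.mul_sum, Finset.mul_sum, ← Finset.sum_add_distrib]
    exact Finset.sum_le_sum fun p hp => (q5 p hp).1

end Pool.Agent.MP_9d78a0_co.pl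

end MrgPart6

-- ======== part 7: formerly Pool.Agent.MP_9d78a0_co.pl.Step
section MrgPart7

/-! Regions in graphs, and the one-vertex extension lemma. -/

set_option autoImplicit false

namespace Pool.Agent.MP_9d78a0_co.pl

open Set

variable {V V' : Type} {F : Family} {K : ℕ}

theorem dd_induce (G : SimpleGraph V) (A : Set V) :
    dd (G.induce A) = {p : V × V | p.1 ∈ A ∧ p.2 ∈ A ∧ G.Adj p.1 p.2}.ncard := by
  rw [dd, ← ncard_image_of_injective _ (Subtype.val_injective.prodMap Subtype.val_injective)]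
  congr 1
  ext ⟨u, v⟩
  refine ⟨?_, fun h => ⟨(⟨u, h.1⟩, ⟨v, h.2.1⟩), h.2.2, rfl⟩⟩
  rintro ⟨⟨a, b⟩, h, e⟩
  obtain ⟨rfl, rfl⟩ := Prod.mk.inj e
  exact ⟨a.2, b.2, h⟩

theorem region (K c : ℕ) {η δ : ℝ} (hη : 0 < η) (hδ : 0 < δ) : ∃ b N0 : ℕ, ∀ N ≥ N0, ∃ n0 : ℕ,
    ∀ (V : Type) [Finite V] (G : SimpleGraph V) (s γ : ℝ), HasDec K G →
      (∀ A : Set V, dd (G.induce A) ≤ c * A.ncard) → (s = 1 ∨ s = -1) → 0 ≤ γ → γ ≤ c →
      s * (dd G - γ * Nat.card V) ≤ 0 → n0 ≤ Nat.card V →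
      ∃ A Y : Set V, Y.ncard ≤ b ∧ (∀ u ∈ A, u ∉ Y → ∀ v, G.Adj u v → v ∈ A) ∧
        (1 - δ) * N ≤ A.ncard ∧ A.ncard ≤ N + b ∧
        s * (dd (G.induce A) - γ * N) ≤ (η + c * δ) * N + b ^ 2 := by
  obtain ⟨b, N0, h⟩ := region_abs K (Nat.cast_nonneg c) hη hδ
  refine ⟨b, N0, fun N hN => (h N hN).imp ?_⟩
  rintro n0 h V _ G s γ ⟨T, hT, -⟩ hc hs g0 g1 htot hn
  have hdiag : Function.Injective fun v : V => (v, v) := fun _ _ e => (Prod.mk.inj e).1
  have a1 : ∀ X : Set (V × V), (X ∩ range fun v => (v, v)).ncard = {v | (v, v) ∈ X}.ncard := by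
    intro X
    rw [← ncard_image_of_injective _ hdiag, ← image_preimage_eq_inter_range]
    rfl
  have a2 : ∀ X : Set (V × V), (VX G X).ncard ≤ (X ∩ range fun v => (v, v)).ncard + fb G X := by
    intro X
    rw [a1]
    refine (ncard_le_ncard fun v hv => ?_).trans (ncard_union_le _ _)
    by_cases k : (v, v) ∈ X
    exacts [Or.inl k, Or.inr ⟨hv, _, k, inc_self v⟩]
  have a3 : ∀ X : Set (V × V), (X ∩ {p | G.Adj p.1 p.2}).ncard ≤ dd (G.induce (VX G X)) := by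
    intro X
    rw [dd_induce]
    exact ncard_le_ncard fun p hp =>
      ⟨⟨p, hp.1, Or.inl rfl, Or.inr hp.2⟩, ⟨p, hp.1, Or.inr rfl, Or.inr hp.2⟩, hp.2⟩
  have a4 : (range fun v : V => (v, v)).ncard = Nat.card V := by
    rw [← image_univ, ncard_image_of_injective _ hdiag, ncard_univ]
  obtain ⟨R, r1, r2, r3, r4⟩ := h (V × V) (fb G) T (range fun v => (v, v)) {p | G.Adj p.1 p.2}
    s (-(s * γ)) subm hT (fun X => by
      have b1 : ((X ∩ {p | G.Adj p.1 p.2}).ncard : ℝ) ≤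
          c * ((X ∩ range fun v => (v, v)).ncard + fb G X) := by
        exact_mod_cast (a3 X).trans ((hc _).trans (Nat.mul_le_mul_left _ (a2 X)))
      have b2 : γ * (X ∩ range fun v => (v, v)).ncard ≤ c * (X ∩ range fun v => (v, v)).ncard := by
        gcongr
      have b3 : (0 : ℝ) ≤ γ * (X ∩ range fun v => (v, v)).ncard := by positivity
      have b4 : (0 : ℝ) ≤ c * fb G X := by positivity
      have b5 : (0 : ℝ) ≤ (X ∩ {p | G.Adj p.1 p.2}).ncard := by positivity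
      rcases hs with rfl | rfl <;> linarith) (by rw [a4]; unfold dd at htot; linarith) (a4 ▸ hn)
  have b1 : (R ∩ range fun v => (v, v)).ncard ≤ (VX G R).ncard := by
    rw [a1]
    exact ncard_le_ncard fun v hv => ⟨_, hv, inc_self v⟩
  have b2 : ∀ u v, G.Adj u v → u ∉ bd G R ∨ v ∉ bd G R → u ∈ VX G R → v ∈ VX G R → (u, v) ∈ R :=
    fun u v e k hu hv => not_not.1 fun d => k.elim (fun k => k ⟨hu, _, d, Or.inl rfl, Or.inr e⟩)
      fun k => k ⟨hv, _, d, Or.inr rfl, Or.inr e⟩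
  have b3 : dd (G.induce (VX G R)) ≤ (R ∩ {p | G.Adj p.1 p.2}).ncard + b ^ 2 := by
    rw [dd_induce]
    refine (ncard_le_ncard (t := R ∩ {p | G.Adj p.1 p.2} ∪ bd G R ×ˢ bd G R) fun p hp => ?_).trans
      ((ncard_union_le _ _).trans (add_le_add le_rfl ?_))
    · by_cases k : p ∈ bd G R ×ˢ bd G R
      exacts [Or.inr k, Or.inl ⟨b2 _ _ hp.2.2 (not_and_or.1 k) hp.1 hp.2.1, hp.2.2⟩]
    · rw [ncard_prod, sq]
      exact Nat.mul_le_mul r1 r1
  refine ⟨VX G R, bd G R, r1, fun u hu k v e => ⟨(u, v), not_not.1 fun d =>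
    k ⟨hu, _, d, Or.inl rfl, Or.inr e⟩, Or.inr rfl, Or.inr e⟩, r2.trans (by exact_mod_cast b1),
    (a2 R).trans (add_le_add r3 r1), ?_⟩
  have c1 : ((R ∩ range fun v => (v, v)).ncard : ℝ) ≤ N := by exact_mod_cast r3
  have c2 : (dd (G.induce (VX G R)) : ℝ) ≤ (R ∩ {p | G.Adj p.1 p.2}).ncard + b ^ 2 := by
    exact_mod_cast b3
  have c3 : ((R ∩ {p | G.Adj p.1 p.2}).ncard : ℝ) ≤ dd (G.induce (VX G R)) := by
    exact_mod_cast a3 R
  have c4 := mul_le_mul_of_nonneg_left c1 hη.le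
  have c5 := mul_le_mul_of_nonneg_left c1 g0
  have c6 := mul_le_mul_of_nonneg_left r2 g0
  have c7 : γ * (δ * N) ≤ c * (δ * N) := by gcongr
  have c8 : 0 ≤ γ * (δ * N) := by positivity
  have c9 : (0 : ℝ) ≤ b ^ 2 := by positivity
  rcases hs with rfl | rfl <;> linarith

theorem exists_leaf [Finite V] {G : SimpleGraph V} {S : Set V} (h : Conn G S) (hn : S.Nontrivial) :
    ∃ z ∈ S, Conn G (S \ {z}) ∧ ∃ x ∈ S \ {z}, G.Adj z x := by
  obtain ⟨a, ha, a', ha', e⟩ := hn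
  obtain ⟨T, ⟨h1, h2⟩, hmax⟩ := Set.Finite.exists_maximal (s := {T | T ⊂ S ∧ Conn G T})
    (toFinite _) ⟨{a}, (ssubset_iff_of_subset (singleton_subset_iff.2 ha)).2 ⟨a', ha', e.symm⟩,
      conn_singleton _ _⟩
  obtain ⟨y, hy, hy'⟩ := exists_of_ssubset h1
  obtain ⟨x0, hx0⟩ := h2.1
  have k : ∀ y, Link G S x0 y → y ∉ T → ∃ x ∈ T, ∃ z ∈ S, z ∉ T ∧ G.Adj z x := by
    intro y hl
    induction hl with
    | refl => exact fun c => absurd hx0 c
    | @tail p q _ d ih =>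
      intro c
      by_cases f : p ∈ T
      exacts [⟨p, f, q, d.2.1, c, d.2.2.symm⟩, ih f]
  obtain ⟨x, hx, z, hz, hz', e⟩ := k y (h.2 _ (h1.subset hx0) _ hy) hy'
  have e1 : insert z T = S := (insert_subset hz h1.subset).eq_or_ssubset.resolve_right fun c =>
    hz' (hmax ⟨c, h2.insert hx e⟩ (subset_insert _ _) (mem_insert _ _))
  have e2 : S \ {z} = T := by rw [← e1, insert_sdiff_self_of_notMem hz']
  exact ⟨z, hz, e2 ▸ h2, x, e2 ▸ hx, e⟩

theorem adj_of_model {G : SimpleGraph V} {G' : SimpleGraph V'} (hG : EdgeMax F G) (hG' : Free F G')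
    {B : V → Set V'} (h : Model G G' univ B) {a b : V} (e : a ≠ b) {x y : V'} (hx : x ∈ B a)
    (hy : y ∈ B b) (hxy : G'.Adj x y) : G.Adj a b := by
  by_contra hn
  refine hG.2 a b e hn (hG'.of_minor (Model.isMinor ⟨h.1, h.2.1, h.2.2.1, fun u v k => ?_⟩))
  rcases sup_edge_adj k with k | ⟨rfl, rfl⟩ | ⟨rfl, rfl⟩
  exacts [h.2.2.2 u v k, ⟨x, hx, y, hy, hxy⟩, ⟨y, hy, x, hx, hxy.symm⟩]

theorem extend [Finite V] [Finite V'] {G : SimpleGraph V} {G' : SimpleGraph V'} (hG : EdgeMax F G)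
    (hG' : Free F G') {B : V → Set V'} (hB : Model G G' univ B) {I : Set V} {I' : Set V'}
    (h2 : ∀ v ∉ I, Disjoint (B v) I') (hI : I.ncard < I'.ncard) {d h : ℕ}
    (hd : ∀ v ∈ I, (G.neighborSet v).ncard ≤ d) (hh : CliqueBound F h) :
    2 * Mminus F (Nat.card V + 1) ≤ dd G + 2 * (h + d + 1) := by
  obtain ⟨z, hz⟩ : ∃ z, ∀ v, z ∈ B v →
      v ∈ I ∧ Conn G' (B v \ {z}) ∧ ∃ x ∈ B v \ {z}, G'.Adj z x := by
    by_cases c : ∃ v ∈ I, (B v).Nontrivial
    · obtain ⟨v, hv, c⟩ := c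
      obtain ⟨z, k1, k2⟩ := exists_leaf (hB.2.1 v) c
      refine ⟨z, fun w hw => ?_⟩
      obtain rfl : w = v := not_not.1 fun e => disjoint_left.1 (hB.2.2.1 w v e) hw k1
      exact ⟨hv, k2⟩
    · push Not at c
      choose σ hσ using fun v => (hB.2.1 v).1
      obtain ⟨z, k1, k2⟩ := exists_mem_notMem_of_ncard_lt_ncard
        ((ncard_image_le (s := I) (f := σ)).trans_lt hI)
      refine ⟨z, fun w hw => absurd ⟨w, ?_, ?_⟩ k2⟩
      · exact not_not.1 fun e => disjoint_left.1 (h2 w e) hw k1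
      · exact c w (not_not.1 fun e => disjoint_left.1 (h2 w e) hw k1) (hσ w) hw
  let C : Option V → Set V' := fun a => a.elim {z} fun v => B v \ {z}
  let H : SimpleGraph (Option V) :=
    { Adj := fun a b => a ≠ b ∧ ∃ x ∈ C a, ∃ y ∈ C b, G'.Adj x y
      symm := ⟨fun _ _ ⟨e, x, hx, y, hy, k⟩ => ⟨e.symm, y, hy, x, hx, k.symm⟩⟩
      loopless := ⟨fun _ k => k.1 rfl⟩ }
  have fH : Free F H := by
    refine hG'.of_minor (Model.isMinor (S := univ) (B := C)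
      ⟨fun _ => subset_univ _, ?_, ?_, fun _ _ k => k.2⟩)
    · rintro (_ | v)
      · exact conn_singleton _ _
      · by_cases c : z ∈ B v
        · exact (hz v c).2.1
        · change Conn G' (B v \ {z})
          rw [sdiff_singleton_eq_self c]
          exact hB.2.1 v
    · rintro (_ | u) (_ | v) e
      exacts [absurd rfl e, disjoint_sdiff_right, disjoint_sdiff_left,
        (hB.2.2.1 u v fun c => e (c ▸ rfl)).mono sdiff_subset sdiff_subset]
  obtain ⟨H', g1, g2⟩ := exists_edgeMax fH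
  let M : V → Set (Option V) := fun v => insert (some v) {a | a = none ∧ z ∈ B v}
  have m1 : ∀ v, ∀ x ∈ B v, ∃ a ∈ M v, x ∈ C a := fun v x hx => by
    by_cases c : x = z
    exacts [⟨none, Or.inr ⟨rfl, c ▸ hx⟩, c⟩, ⟨some v, Or.inl rfl, hx, c⟩]
  have m2 : ∀ u v, u ≠ v → Disjoint (M u) (M v) := fun u v e => by
    rw [disjoint_left]
    rintro _ (rfl | ⟨rfl, c⟩) (d | d)
    exacts [e (Option.some_injective _ d), by simpa using d.1, by simp at d,
      disjoint_left.1 (hB.2.2.1 u v e) c d.2]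
  have hM : Model G H' univ M := by
    refine ⟨fun _ => subset_univ _, fun v => ?_, m2, fun u v e => ?_⟩
    · by_cases c : z ∈ B v
      · obtain ⟨-, -, x, k1, k2⟩ := hz v c
        have : M v = insert (some v) {none} := by simp [M, c]
        exact this ▸ (conn_singleton _ _).insert rfl (g1 ⟨by simp, x, k1, z, rfl, k2.symm⟩)
      · have : M v = {some v} := by simp [M, c]
        exact this ▸ conn_singleton _ _
    · obtain ⟨x, hx, y, hy, k⟩ := hB.2.2.2 u v e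
      obtain ⟨a, a1, a2⟩ := m1 u x hx
      obtain ⟨b, b1, b2⟩ := m1 v y hy
      exact ⟨a, a1, b, b1, g1 ⟨fun c => disjoint_left.1 (m2 u v e.ne) a1 (c ▸ b1), x, a2, y, b2, k⟩⟩
  have k1 := two_Mminus_le g2
  have k2 := dd_option_le (G := G) (G' := H') fun a b e =>
    adj_of_model hG g2.1 hM (fun c => e.ne (c ▸ rfl)) (Or.inl rfl) (Or.inl rfl) e
  have k3 : {a | H'.Adj (some a) none}.ncard ≤ h + d + 1 := by
    by_cases c : ∃ v, z ∈ B v
    · obtain ⟨v, c⟩ := c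
      refine (ncard_le_ncard (t := insert v (G.neighborSet v)) fun a ha => ?_).trans
        ((ncard_insert_le _ _).trans (by have := hd v (hz v c).1; omega))
      by_cases e : a = v
      exacts [Or.inl e, Or.inr (adj_of_model hG g2.1 hM e (Or.inl rfl) (Or.inr ⟨rfl, c⟩) ha).symm]
    · refine (hh V G _ hG.1 fun a ha b hb e => hG.adj_of_conn g2.1 some (Option.some_injective _)
        (fun u v k => ?_) (conn_singleton H' none) (by simp) e rfl rfl ha hb).trans (by omega)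
      obtain ⟨_, rfl | ⟨-, p⟩, _, rfl | ⟨-, q⟩, k⟩ := hM.2.2.2 u v k
      exacts [k, absurd ⟨_, q⟩ c, absurd ⟨_, p⟩ c, absurd ⟨_, p⟩ c]
  rw [Finite.card_option] at k1
  omega

/-- a graph cut along the boundary of a vertex set, the lost edges being recorded by colours -/
def cutCG {ι : Type} [Finite V] (G : SimpleGraph V) (I : Set V) (ρ : V → Set ι) :
    CG (Prop × Set ι × Set ι) where
  V := V
  fin := inferInstance
  G := { Adj := fun u v => G.Adj u v ∧ (u ∈ I ↔ v ∈ I)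
         symm := ⟨fun _ _ k => ⟨k.1.symm, k.2.symm⟩⟩
         loopless := ⟨fun _ k => k.1.ne rfl⟩ }
  c := fun v => (v ∈ I, ρ v, {i | ∃ y, G.Adj v y ∧ i ∈ ρ y})

theorem cut_model {ι : Type} [Finite V] [Finite V'] {G : SimpleGraph V} {G' : SimpleGraph V'}
    {I : Set V} {I' : Set V'} {ρ : V → Set ι} {ρ' : V' → Set ι}
    (h : (cutCG G I ρ).Le (cutCG G' I' ρ')) (h1 : ∀ u ∈ I, ∀ v ∉ I, G.Adj u v → (ρ v).Nonempty)
    (h2 : ∀ i y y', i ∈ ρ' y → i ∈ ρ' y' → y = y') :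
    ∃ B, Model G G' univ B ∧ ∀ v ∉ I, Disjoint (B v) I' := by
  obtain ⟨B, ⟨-, a1, a2, a3⟩, a4⟩ := h
  choose x x1 x2 using a4
  have k : ∀ u ∈ I, ∀ v ∉ I, G.Adj u v → G'.Adj (x u) (x v) := by
    intro u hu v hv e
    obtain ⟨i, hi⟩ := h1 u hu v hv e
    have e1 : {i | ∃ y, G'.Adj (x u) y ∧ i ∈ ρ' y} = {i | ∃ y, G.Adj u y ∧ i ∈ ρ y} :=
      congrArg (·.2.2) (x2 u)
    have e2 : ρ' (x v) = ρ v := congrArg (·.2.1) (x2 v)
    obtain ⟨y, b1, b2⟩ := e1.ge ⟨v, e, hi⟩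
    exact h2 i y _ b2 (e2.ge hi) ▸ b1
  refine ⟨B, ⟨fun _ => subset_univ _, fun v => conn_mono (a1 v) fun _ _ c => c.1, a2,
    fun u v e => ?_⟩, fun v hv => disjoint_left.2 fun y hy => ?_⟩
  · by_cases c : u ∈ I ↔ v ∈ I
    · obtain ⟨p, hp, q, hq, d⟩ := a3 u v ⟨e, c⟩
      exact ⟨p, hp, q, hq, d.1⟩
    · by_cases d : u ∈ I
      · exact ⟨_, x1 u, _, x1 v, k u d v (fun f => c (iff_of_true d f)) e⟩
      · exact ⟨_, x1 u, _, x1 v, (k v (not_not.1 fun f => c (iff_of_false d f)) u d e.symm).symm⟩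
  · have hl := (a1 v).2 _ (x1 v) y hy
    clear hy
    induction hl with
    | refl => exact fun c => hv ((congrArg Prod.fst (x2 v)).mp c)
    | tail _ d ih => exact fun c => ih (d.2.2.2.2 c)

/-- The least number of edges grows by a bounded amount when a vertex is added. -/
theorem step (he : ∀ H ∈ F, H.2 ≠ ⊥) (hK : Narrow F K) {c h : ℕ} (hc : EdgeBound F c)
    (hh : CliqueBound F h) : ∃ C, ∀ n, Mminus F (n + 1) ≤ Mminus F n + C := by
  obtain ⟨b, N0, hr⟩ := region K c one_pos (half_pos one_pos)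
  choose n0 hr using fun m : ℕ => hr (N0 + 2 * (m + b)) (by omega)
  by_contra hn
  push Not at hn
  choose n hn using fun m : ℕ => hn (h + (N0 + 2 * (m + b) + b) + 1 + c * n0 m)
  choose G hG hd using fun m => exists_Mminus he (n m)
  have hi : ∀ (V : Type) [Finite V] (G : SimpleGraph V), Free F G → ∀ A : Set V,
      dd (G.induce A) ≤ c * A.ncard := fun V _ G k A =>
    hc _ _ (k.of_inj Subtype.val Subtype.val_injective fun _ _ d => d)
  have key : ∀ m, ∃ A Y : Set (Fin (n m)), Y.ncard ≤ b ∧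
      (∀ u ∈ A, u ∉ Y → ∀ v, (G m).Adj u v → v ∈ A) ∧ m ≤ (A \ Y).ncard ∧
        A.ncard ≤ N0 + 2 * (m + b) + b := by
    intro m
    have a1 := hc _ _ (hG m).1
    obtain ⟨A, Y, k1, k2, k3, k4, -⟩ := hr m _ (G m) 1 c (hK _ _ (hG m).1) (hi _ _ (hG m).1)
      (Or.inl rfl) (Nat.cast_nonneg _) le_rfl (by
        have : (dd (G m) : ℝ) ≤ c * Nat.card (Fin (n m)) := by exact_mod_cast a1
        linarith) (by
        obtain ⟨H, b1, b2⟩ := exists_Mminus he (n m + 1)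
        have b3 := hc _ _ b1.1
        have b4 := hn m
        rw [Nat.card_fin] at b3 ⊢
        by_contra d
        have := Nat.mul_le_mul_left c (show n m + 1 ≤ n0 m by omega)
        omega)
    refine ⟨A, Y, k1, k2, ?_, k4⟩
    have b1 : N0 + 2 * (m + b) ≤ 2 * A.ncard := by
      have : ((N0 + 2 * (m + b) : ℕ) : ℝ) ≤ 2 * A.ncard := by linarith
      exact_mod_cast this
    have b2 := le_ncard_sdiff Y A
    omega
  choose A Y k1 k2 k3 k4 using key
  choose ρ r1 r2 using fun m => exists_roles (k1 m)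
  obtain ⟨g, hg⟩ := (pwo hK).exists_monotone_subseq (f := fun m => cutCG (G m) (A m \ Y m) (ρ m))
    fun m => (hG m).1.mono fun _ _ k => k.1
  obtain ⟨B, b1, b2⟩ := cut_model (hg 0 ((A (g 0)).ncard + 1) (Nat.zero_le _))
    (fun u hu v hv e => r2 _ v (not_not.1 fun d => hv ⟨k2 _ u hu.1 hu.2 v e, d⟩)) (r1 _)
  have b3 := extend (hG _) (hG _).1 b1 b2 (lt_of_le_of_lt (ncard_le_ncard sdiff_subset)
    (lt_of_lt_of_le (g.strictMono.id_le _) (k3 _))) (d := N0 + 2 * (g 0 + b) + b)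
    (fun v hv => (ncard_le_ncard (k2 _ v hv.1 hv.2)).trans (k4 _)) hh
  have b4 := hn (g 0)
  rw [Nat.card_fin, hd] at b3
  omega

end Pool.Agent.MP_9d78a0_co.pl

end MrgPart7

-- marker of a merged file
example : 731051 + 295739 = 731051 + 295739 := rfl
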