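import Pool.Agent.MP_9d78a0_co.pl.Step
import Pool.Agent.MP_7be75d_co.Gen.Final

/-! Convergence for families with a planar member. -/

set_option autoImplicit false

namespace Pool.Agent.MP_9d78a0_co.pl

open Set Filter Topology

variable {F : Family} {K : ℕ}

theorem free_induce {c : ℕ} (hc : EdgeBound F c) {V : Type} [Finite V] {G : SimpleGraph V}
    (k : Free F G) (d : ℕ) (A : Set V) : dd (G.induce A) ≤ (c + d) * A.ncard :=
  (hc _ _ (k.of_inj Subtype.val Subtype.val_injective fun _ _ d => d)).trans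
    (Nat.mul_le_mul_right _ (Nat.le_add_right _ _))

theorem Mminus_tendsto (hF : F.Nonempty) (he : ∀ H ∈ F, H.2 ≠ ⊥) (hK : Narrow F K) :
    ∃ a, Tendsto (fun n => (Mminus F n : ℝ) / n) atTop (𝓝 a) := by
  obtain ⟨c, h, hc, hh⟩ := exists_bounds hF
  obtain ⟨C, hC⟩ := step he hK hc hh
  have hC' : ∀ n r, Mminus F (n + r) ≤ Mminus F n + C * r := fun n r => by
    induction r with
    | zero => simp
    | succ r ih =>
      have := hC (n + r)
      rw [← add_assoc, Nat.mul_succ]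
      omega
  refine tendsto_of_freq (c := c) (fun n => by positivity) (fun n => ?_) fun γ ε hγ hε hfr => ?_
  · refine le_trans ?_ (Mplus_div_le he hc n)
    gcongr
    exact_mod_cast Mminus_le_Mplus he n
  obtain ⟨δ, d0, d1⟩ : ∃ δ : ℝ, 0 < δ ∧ ((c + ⌈2 * γ⌉₊ : ℕ) + 2 * C) * δ ≤ ε :=
    ⟨ε / ((c + ⌈2 * γ⌉₊ : ℕ) + 2 * C + 1), by positivity, by
      rw [← mul_div_assoc, div_le_iff₀ (by positivity)]
      linarith⟩
  obtain ⟨b, N0, hr⟩ := region K (c + ⌈2 * γ⌉₊) hε d0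
  obtain ⟨β, hβ⟩ := replace hK b
  obtain ⟨N1, hN1⟩ := exists_nat_ge (((b : ℝ) ^ 2 + (b + β) ^ 2 + 2 * C * (b + β)) / (2 * ε))
  filter_upwards [eventually_ge_atTop (N0 + N1 + 1 + (b + β))] with N hN
  obtain ⟨N, rfl⟩ : ∃ M, N = M + (b + β) := ⟨N - (b + β), by omega⟩
  obtain ⟨n0, hr⟩ := hr N (by omega)
  obtain ⟨n, h1, h2⟩ := (hfr.and_eventually (eventually_ge_atTop (n0 + 1))).exists
  obtain ⟨G, hG, hd⟩ := exists_Mminus he n
  rw [div_le_iff₀ (by exact_mod_cast (by omega : 0 < n))] at h1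
  obtain ⟨A, Y, a1, a2, a3, a4, a5⟩ := hr _ G 1 (2 * γ) (hK _ _ hG.1) (free_induce hc hG.1 _)
    (Or.inl rfl) (by positivity) (by push_cast; linarith [Nat.le_ceil (2 * γ), c.cast_nonneg (α := ℝ)])
    (by rw [hd, Nat.card_fin]; push_cast; linarith) (by rw [Nat.card_fin]; omega)
  obtain ⟨m, m1, m2, m3⟩ := hβ _ G A Y hG a1 a2
  obtain ⟨r, hr⟩ := Nat.exists_eq_add_of_le (show m ≤ N + (b + β) by omega)
  have b1 := hC' m r
  rw [← hr] at b1
  have b2 : (Mminus F (N + (b + β)) : ℝ) ≤ Mminus F m + C * r := by exact_mod_cast b1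
  have b3 : (2 * Mminus F m : ℝ) ≤ dd (G.induce A) + (b + β) ^ 2 := by exact_mod_cast m3
  have b4 : (A.ncard : ℝ) + r ≤ N + (b + β) := by exact_mod_cast (by omega : A.ncard + r ≤ N + (b + β))
  have b5 : (C : ℝ) * r ≤ C * (δ * N + (b + β)) := by gcongr; linarith
  have b6 := mul_le_mul_of_nonneg_right d1 (N.cast_nonneg (α := ℝ))
  have b7 : (N1 : ℝ) * (2 * ε) ≤ N * (2 * ε) := by gcongr; omega
  have b8 : 0 ≤ (γ + 2 * ε) * (b + β) := by positivity
  rw [div_le_iff₀ (by positivity)] at hN1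
  rw [div_le_iff₀ (by exact_mod_cast (by omega : 0 < N + (b + β)))]
  push_cast at *
  linarith

theorem Mplus_tendsto (hF : F.Nonempty) (he : ∀ H ∈ F, H.2 ≠ ⊥) (hK : Narrow F K) :
    ∃ a, Tendsto (fun n => (Mplus F n : ℝ) / n) atTop (𝓝 a) := by
  obtain ⟨c, h, hc, -⟩ := exists_bounds hF
  refine (tendsto_of_freq (u := fun n => c - (Mplus F n : ℝ) / n) (c := c)
    (fun n => sub_nonneg.2 (Mplus_div_le he hc n)) (fun n => sub_le_self _ (by positivity)) ?_).elim
    fun a ha => ⟨c - a, by simpa using ha.const_sub (c : ℝ)⟩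
  intro γ ε hγ hε hfr
  obtain ⟨δ, d0, d1⟩ : ∃ δ : ℝ, 0 < δ ∧ (c + c : ℕ) * δ ≤ ε :=
    ⟨ε / ((c + c : ℕ) + 1), by positivity, by
      rw [← mul_div_assoc, div_le_iff₀ (by positivity)]
      linarith⟩
  obtain ⟨b, N0, hr⟩ := region K (c + c) hε d0
  obtain ⟨N1, hN1⟩ := exists_nat_ge (((b : ℝ) ^ 2 + 2 * c * b) / (2 * ε))
  filter_upwards [eventually_ge_atTop (N0 + N1 + 1 + b)] with N hN
  obtain ⟨N, rfl⟩ : ∃ M, N = M + b := ⟨N - b, by omega⟩
  obtain ⟨n0, hr⟩ := hr N (by omega)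
  obtain ⟨n, h1, h2⟩ := (hfr.and_eventually (eventually_ge_atTop (n0 + 1 + (N + b)))).exists
  obtain ⟨G, hG, hd⟩ := exists_Mplus he n
  have c0 := c.cast_nonneg (α := ℝ)
  have g1 : max (c - γ) 0 ≤ (Mplus F n : ℝ) / n := max_le (by linarith) (by positivity)
  have g2 : max (c - γ) 0 ≤ c := max_le (by linarith) c0
  have g3 := le_max_left (c - γ) 0
  have g4 := le_max_right (c - γ) 0
  generalize max (c - γ) 0 = g at *
  rw [le_div_iff₀ (by exact_mod_cast (by omega : 0 < n))] at g1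
  obtain ⟨A, Y, -, -, -, a4, a5⟩ := hr _ G (-1) (2 * g) (hK _ _ hG.1) (free_induce hc hG.1 _)
    (Or.inr rfl) (by positivity) (by push_cast; linarith)
    (by rw [hd, Nat.card_fin]; push_cast; linarith) (by rw [Nat.card_fin]; omega)
  obtain ⟨A', k1, -, k2⟩ := exists_subsuperset_card_eq (subset_univ A) a4
    (by rw [ncard_univ, Nat.card_fin]; omega)
  have b1 := le_two_Mplus (G := G.induce A')
    (hG.1.of_inj Subtype.val Subtype.val_injective fun _ _ d => d)
  rw [Nat.card_coe_set_eq, k2] at b1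
  have b2 : dd (G.induce A) ≤ dd (G.induce A') :=
    dd_le_of_inj (inclusion k1) (inclusion_injective k1) fun _ _ d => d
  have b3 : (dd (G.induce A) : ℝ) ≤ 2 * Mplus F (N + b) := by exact_mod_cast b2.trans b1
  have b4 := mul_le_mul_of_nonneg_right d1 (N.cast_nonneg (α := ℝ))
  have b5 : (N1 : ℝ) * (2 * ε) ≤ N * (2 * ε) := by gcongr; omega
  have b6 := mul_le_mul_of_nonneg_right g3 (N.cast_nonneg (α := ℝ))
  have b7 : 0 ≤ (γ + 2 * ε) * b := by positivity
  rw [div_le_iff₀ (by positivity)] at hN1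
  rw [sub_le_comm, le_div_iff₀ (by exact_mod_cast (by omega : 0 < N + b))]
  push_cast at *
  linarith

open MP_7be75d_co in
/-- The grid theorem. -/
theorem narrow_of_plane (h : ∃ H ∈ F, IsPlane H.2) : ∃ K, Narrow F K := by
  obtain ⟨⟨k, H⟩, h1, h2⟩ := h
  obtain ⟨g, hg⟩ := Gen.main_thm k
  refine ⟨4 * (g * Fintype.card (Fin k)) + 2, fun V _ G hG => ?_⟩
  have := Fintype.ofFinite V
  refine exists_dec (Gen.EP.sep_of_tw (not_le.1 fun c => hG _ h1 (hg _ _ H G h2 ?_ c)))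
  rintro ⟨v, p, -, hp⟩
  have : Function.Injective v := fun i j e => not_not.1 fun c =>
    hp i j c (p i).start_mem_support (by rw [e]; exact (p j).start_mem_support)
  simpa using Fintype.card_le_of_injective v this

end Pool.Agent.MP_9d78a0_co.pl
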